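import Pool.Agent.Lib.MP_6cd968_gt.Cpx

set_option autoImplicit false

namespace Pool.Agent.Lib.MP_6cd968_gt

/-- the acting group -/
abbrev GG : Type := Multiplicative (ℤ × ℤ)

/-- translation -/
def tr (a b : ℤ) (v : VV) : VV := (v.1 + a, v.2.1 + b, v.2.2)

/-- the action of `ℤ²` by translations -/
@[instance_reducible]
def act : MulAction GG VV where
  smul g v := tr g.toAdd.1 g.toAdd.2 v
  one_smul v := by
    show tr 0 0 v = v
    simp [tr]
  mul_smul g h v := by
    show tr (g.toAdd + h.toAdd).1 (g.toAdd + h.toAdd).2 v =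
      tr g.toAdd.1 g.toAdd.2 (tr h.toAdd.1 h.toAdd.2 v)
    simp only [tr, Prod.fst_add, Prod.snd_add]
    ext <;> simp <;> ring

theorem tr_inj (a b : ℤ) : Function.Injective (tr a b) := by
  rintro ⟨x, y, k⟩ ⟨x', y', k'⟩ h
  simp only [tr, Prod.mk.injEq] at h ⊢
  obtain ⟨h1, h2, h3⟩ := h
  exact ⟨by omega, by omega, h3⟩

theorem tri_tr (a b i j : ℤ) (l : Fin 4) : (tri i j l).image (tr a b) = tri (i + a) (j + b) l := by
  fin_cases l <;> simp only [tri, Finset.image_insert, Finset.image_singleton, tr] <;>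
    simp only [add_right_comm, sub_add_eq_add_sub]

theorem act_SS (a b : ℤ) (s : Finset VV) (hs : s ∈ SS) : s.image (tr a b) ∈ SS := by
  obtain ⟨h1, i, j, l, h2⟩ := hs
  refine ⟨h1.image _, i + a, j + b, l, ?_⟩
  rw [← tri_tr]
  exact Finset.image_subset_image h2

theorem act_free (a b : ℤ) (h : (a, b) ≠ (0, 0)) (s : Finset VV) (hs : s.Nonempty) :
    s.image (tr a b) ≠ s := by
  intro he
  apply h
  have hc : (s.card : ℤ) ≠ 0 := by
    have := hs.card_pos
    omega
  have h1 : ∑ v ∈ s.image (tr a b), v.1 = ∑ v ∈ s, v.1 := by rw [he]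
  have h2 : ∑ v ∈ s.image (tr a b), v.2.1 = ∑ v ∈ s, v.2.1 := by rw [he]
  rw [Finset.sum_image (fun x _ y _ hxy => tr_inj a b hxy)] at h1 h2
  simp only [tr, Finset.sum_add_distrib, Finset.sum_const, add_eq_left, nsmul_eq_mul,
    mul_eq_zero] at h1 h2
  rcases h1 with h1 | h1
  · exact absurd h1 hc
  rcases h2 with h2 | h2
  · exact absurd h2 hc
  rw [h1, h2]

theorem cond_inv : letI := act; ∀ g : GG, ∀ s ∈ SS, ∃ t ∈ SS,
    (t : Set VV) = (fun v => g • v) '' (s : Set VV) := by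
  intro g s hs
  refine ⟨s.image (tr g.toAdd.1 g.toAdd.2), act_SS _ _ s hs, ?_⟩
  rw [Finset.coe_image]
  rfl

theorem cond_free : letI := act; ∀ g : GG, g ≠ 1 → ∀ s ∈ SS,
    (fun v => g • v) '' (s : Set VV) ≠ (s : Set VV) := by
  intro g hg s hs he
  have h1 : (g.toAdd.1, g.toAdd.2) ≠ ((0 : ℤ), (0 : ℤ)) := by
    intro h
    apply hg
    rw [← toAdd_eq_zero]
    exact h
  apply act_free _ _ h1 s hs.1
  rw [← Finset.coe_inj, Finset.coe_image]
  exact he

theorem cond_fin : letI := act; ∃ F : Finset (Finset VV), ∀ s ∈ SS, ∃ g : GG, ∃ t ∈ F,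
    (s : Set VV) = (fun v => g • v) '' (t : Set VV) := by
  classical
  refine ⟨Finset.univ.biUnion (fun l : Fin 4 => (tri 0 0 l).powerset), ?_⟩
  rintro s ⟨h1, i, j, l, h2⟩
  refine ⟨Multiplicative.ofAdd (i, j), s.image (tr (-i) (-j)), ?_, ?_⟩
  · rw [Finset.mem_biUnion]
    refine ⟨l, Finset.mem_univ _, ?_⟩
    rw [Finset.mem_powerset]
    have := Finset.image_subset_image (f := tr (-i) (-j)) h2
    rw [tri_tr] at this
    simpa using this
  · show (s : Set VV) = (tr i j) '' (s.image (tr (-i) (-j)) : Set VV)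
    rw [Finset.coe_image, Set.image_image]
    have : (fun x => tr i j (tr (-i) (-j) x)) = id := by
      funext x
      simp [tr]
    rw [this, Set.image_id]

end Pool.Agent.Lib.MP_6cd968_gt
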