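import Pool.Agent.Lib.MP_6cd968_gt.Ell

set_option autoImplicit false

namespace Pool.Agent.Lib.MP_6cd968_gt

/-- vertices: `(i, j, false)` lattice points, `(i, j, true)` cone points. -/
abbrev VV : Type := ℤ × ℤ × Bool

/-- maximal triangles -/
def tri (i j : ℤ) : Fin 4 → Finset VV
  | 0 => {(i, j, false), (i + 1, j, false), (i + 1, j + 1, false)}
  | 1 => {(i, j, false), (i, j + 1, false), (i + 1, j + 1, false)}
  | 2 => {(i, j, true), (i, j, false), (i, j + 1, false)}
  | 3 => {(i, j, true), (i, j, false), (i, j - 1, false)}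

/-- the complex -/
def SS : Set (Finset VV) := {s | s.Nonempty ∧ ∃ i j l, s ⊆ tri i j l}

theorem tri_card (i j : ℤ) (l : Fin 4) : (tri i j l).card ≤ 3 := by
  fin_cases l <;> exact Finset.card_le_three

theorem tri_nonempty (i j : ℤ) (l : Fin 4) : (tri i j l).Nonempty := by
  fin_cases l <;> exact Finset.insert_nonempty _ _

theorem SS_single (v : VV) : ({v} : Finset VV) ∈ SS := by
  obtain ⟨i, j, k⟩ := v
  refine ⟨Finset.singleton_nonempty _, i, j, 2, ?_⟩
  rw [Finset.singleton_subset_iff]
  cases k <;> simp [tri]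

theorem SS_card (s : Finset VV) (hs : s ∈ SS) : s.Nonempty ∧ s.card ≤ 3 := by
  obtain ⟨h1, i, j, l, h2⟩ := hs
  exact ⟨h1, (Finset.card_le_card h2).trans (tri_card i j l)⟩

theorem SS_down (s : Finset VV) (hs : s ∈ SS) (t : Finset VV) (hts : t ⊆ s) (ht : t.Nonempty) :
    t ∈ SS := by
  obtain ⟨h1, i, j, l, h2⟩ := hs
  exact ⟨ht, i, j, l, hts.trans h2⟩

theorem tri_mem_SS (i j : ℤ) (l : Fin 4) : tri i j l ∈ SS :=
  ⟨tri_nonempty i j l, i, j, l, Finset.Subset.refl _⟩

/-- the realization -/
def XX : Set (lp (fun _ : VV => ℝ) 1) :=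
  {f | (∀ v, 0 ≤ f v) ∧ ∃ s ∈ SS, (∀ v, v ∉ s → f v = 0) ∧ ∑ v ∈ s, f v = 1}

/-- being carried by a given maximal triangle -/
def OnTri (i j : ℤ) (l : Fin 4) (f : lp (fun _ : VV => ℝ) 1) : Prop :=
  (∀ v, 0 ≤ f v) ∧ (∀ v, v ∉ tri i j l → f v = 0) ∧ ∑ v ∈ tri i j l, f v = 1

theorem mem_XX_iff (f : lp (fun _ : VV => ℝ) 1) : f ∈ XX ↔ ∃ i j l, OnTri i j l f := by
  constructor
  · rintro ⟨h0, s, ⟨_, i, j, l, hs⟩, h1, h2⟩
    refine ⟨i, j, l, h0, fun v hv => h1 v (fun h => hv (hs h)), ?_⟩
    rw [← h2]
    symm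
    apply Finset.sum_subset hs
    intro v _ hv
    exact h1 v hv
  · rintro ⟨i, j, l, h0, h1, h2⟩
    exact ⟨h0, tri i j l, tri_mem_SS i j l, h1, h2⟩

theorem OnTri.convex {i j : ℤ} {l : Fin 4} {f g : lp (fun _ : VV => ℝ) 1} (hf : OnTri i j l f)
    (hg : OnTri i j l g) (t : ℝ) (h0 : 0 ≤ t) (h1 : t ≤ 1) :
    OnTri i j l ((1 - t) • f + t • g) := by
  obtain ⟨f0, f1, f2⟩ := hf
  obtain ⟨g0, g1, g2⟩ := hg
  refine ⟨?_, ?_, ?_⟩
  · intro v
    rw [lp.coeFn_add, Pi.add_apply, lp.coeFn_smul, lp.coeFn_smul, Pi.smul_apply, Pi.smul_apply,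
      smul_eq_mul, smul_eq_mul]
    have := f0 v
    have := g0 v
    have : 0 ≤ 1 - t := by linarith
    positivity
  · intro v hv
    rw [lp.coeFn_add, Pi.add_apply, lp.coeFn_smul, lp.coeFn_smul, Pi.smul_apply, Pi.smul_apply,
      smul_eq_mul, smul_eq_mul, f1 v hv, g1 v hv]
    ring
  · have : ∀ v ∈ tri i j l, ((1 - t) • f + t • g : lp (fun _ : VV => ℝ) 1) v =
        (1 - t) * f v + t * g v := by
      intro v _
      rw [lp.coeFn_add, Pi.add_apply, lp.coeFn_smul, lp.coeFn_smul, Pi.smul_apply, Pi.smul_apply,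
        smul_eq_mul, smul_eq_mul]
    rw [Finset.sum_congr rfl this, Finset.sum_add_distrib, ← Finset.mul_sum, ← Finset.mul_sum,
      f2, g2]
    ring

/-! ### The barycentre map to the plane -/

/-- local box around a vertex -/
noncomputable def box (v : VV) : Finset VV :=
  Finset.Icc (v.1 - 1) (v.1 + 1) ×ˢ (Finset.Icc (v.2.1 - 1) (v.2.1 + 1) ×ˢ Finset.univ)

theorem tri_subset_box (i j : ℤ) (l : Fin 4) (v : VV) (hv : v ∈ tri i j l) :
    tri i j l ⊆ box v := by
  obtain ⟨a, b, k⟩ := v
  intro w hw
  obtain ⟨a', b', k'⟩ := w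
  simp only [box, Finset.mem_product, Finset.mem_Icc, Finset.mem_univ, and_true]
  fin_cases l <;> simp [tri] at hv hw <;> omega

/-- the barycentre map, as a (junk outside) infinite sum -/
noncomputable def bary (f : lp (fun _ : VV => ℝ) 1) : ℝ × ℝ :=
  (∑' v : VV, f v * (v.1 : ℝ), ∑' v : VV, f v * (v.2.1 : ℝ))

theorem bary_eq_sum (f : lp (fun _ : VV => ℝ) 1) (s : Finset VV) (hs : ∀ v, v ∉ s → f v = 0) :
    bary f = (∑ v ∈ s, f v * (v.1 : ℝ), ∑ v ∈ s, f v * (v.2.1 : ℝ)) := by
  unfold bary
  rw [tsum_eq_sum (s := s), tsum_eq_sum (s := s)]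
  · intro v hv; rw [hs v hv, zero_mul]
  · intro v hv; rw [hs v hv, zero_mul]

theorem continuousOn_bary : ContinuousOn bary XX := by
  intro f0 hf0
  -- pick a vertex with positive weight
  obtain ⟨i0, j0, l0, h0⟩ := (mem_XX_iff f0).mp hf0
  obtain ⟨v0, hv0, hpos⟩ : ∃ v ∈ tri i0 j0 l0, 0 < f0 v := by
    by_contra h
    push Not at h
    have : ∑ v ∈ tri i0 j0 l0, f0 v ≤ 0 := Finset.sum_nonpos h
    rw [h0.2.2] at this
    linarith
  have hU : IsOpen {f : lp (fun _ : VV => ℝ) 1 | 0 < f v0} :=
    isOpen_lt continuous_const (continuous_eval v0)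
  have hcont : ContinuousAt (fun f : lp (fun _ : VV => ℝ) 1 =>
      ((∑ v ∈ box v0, f v * (v.1 : ℝ), ∑ v ∈ box v0, f v * (v.2.1 : ℝ)) : ℝ × ℝ)) f0 := by
    apply Continuous.continuousAt
    apply Continuous.prodMk
    · exact continuous_finsetSum _ (fun v _ => (continuous_eval v).mul continuous_const)
    · exact continuous_finsetSum _ (fun v _ => (continuous_eval v).mul continuous_const)
  apply ContinuousWithinAt.congr_of_eventuallyEq hcont.continuousWithinAt
  · have : {f : lp (fun _ : VV => ℝ) 1 | 0 < f v0} ∩ XX ∈ nhdsWithin f0 XX := by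
      rw [Set.inter_comm]
      exact inter_mem_nhdsWithin XX (hU.mem_nhds hpos)
    filter_upwards [this] with f hf
    obtain ⟨hf1, hf2⟩ := hf
    obtain ⟨i, j, l, h⟩ := (mem_XX_iff f).mp hf2
    have hv : v0 ∈ tri i j l := by
      by_contra hc
      have := h.2.1 v0 hc
      have h3 : 0 < f v0 := hf1
      linarith
    apply bary_eq_sum
    intro v hv'
    exact h.2.1 v (fun hh => hv' (tri_subset_box i j l v0 hv hh))
  · apply bary_eq_sum
    intro v hv'
    exact h0.2.1 v (fun hh => hv' (tri_subset_box i0 j0 l0 v0 hv0 hh))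

/-! ### The hat functions -/

/-- hat function of the Freudenthal triangulation -/
noncomputable def wt (q : ℝ × ℝ) (v : VV) : ℝ :=
  if v.2.2 then 0 else
    max 0 (1 - max |q.1 - v.1| (max |q.2 - v.2.1| |(q.1 - v.1) - (q.2 - v.2.1)|))

theorem wt_nonneg (q : ℝ × ℝ) (v : VV) : 0 ≤ wt q v := by
  unfold wt; split_ifs
  · exact le_refl _
  · exact le_max_left _ _

theorem continuous_wt (v : VV) : Continuous (fun q => wt q v) := by
  unfold wt
  split_ifs
  · exact continuous_const
  · fun_prop

theorem wt_ne_zero (q : ℝ × ℝ) (v : VV) (h : wt q v ≠ 0) :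
    |q.1 - v.1| < 1 ∧ |q.2 - v.2.1| < 1 := by
  unfold wt at h
  split_ifs at h with h1
  · exact absurd rfl h
  · have h2 : 0 < 1 - max |q.1 - v.1| (max |q.2 - v.2.1| |(q.1 - v.1) - (q.2 - v.2.1)|) := by
      by_contra hc
      push Not at hc
      exact h (max_eq_left hc)
    constructor
    · have := le_max_left |q.1 - v.1| (max |q.2 - v.2.1| |(q.1 - v.1) - (q.2 - v.2.1)|)
      linarith
    · have h3 := le_max_right |q.1 - v.1| (max |q.2 - v.2.1| |(q.1 - v.1) - (q.2 - v.2.1)|)
      have h4 := le_max_left |q.2 - v.2.1| |(q.1 - v.1) - (q.2 - v.2.1)|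
      linarith

/-- big box -/
noncomputable def bbox (i j : ℤ) : Finset VV :=
  Finset.Icc (i - 3) (i + 3) ×ˢ (Finset.Icc (j - 3) (j + 3) ×ˢ Finset.univ)

theorem wt_mem_bbox (q q0 : ℝ × ℝ) (h : ‖q - q0‖ < 1) (v : VV) (hv : wt q v ≠ 0) :
    v ∈ bbox ⌊q0.1⌋ ⌊q0.2⌋ := by
  obtain ⟨h1, h2⟩ := wt_ne_zero q v hv
  have h3 : |q.1 - q0.1| < 1 := lt_of_le_of_lt (norm_fst_le (q - q0)) h
  have h4 : |q.2 - q0.2| < 1 := lt_of_le_of_lt (norm_snd_le (q - q0)) h
  rw [abs_lt] at h1 h2 h3 h4
  have f1 := Int.floor_le q0.1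
  have f2 := Int.lt_floor_add_one q0.1
  have f3 := Int.floor_le q0.2
  have f4 := Int.lt_floor_add_one q0.2
  simp only [bbox, Finset.mem_product, Finset.mem_Icc, Finset.mem_univ, and_true]
  have g1 : ((⌊q0.1⌋ - 3 : ℤ) : ℝ) ≤ v.1 := by push_cast; linarith
  have g2 : (v.1 : ℝ) ≤ ((⌊q0.1⌋ + 3 : ℤ) : ℝ) := by push_cast; linarith
  have g3 : ((⌊q0.2⌋ - 3 : ℤ) : ℝ) ≤ v.2.1 := by push_cast; linarith
  have g4 : (v.2.1 : ℝ) ≤ ((⌊q0.2⌋ + 3 : ℤ) : ℝ) := by push_cast; linarith
  exact ⟨⟨by exact_mod_cast g1, by exact_mod_cast g2⟩, ⟨by exact_mod_cast g3, by exact_mod_cast g4⟩⟩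

/-- the map from the plane to the realization -/
noncomputable def gg (q : ℝ × ℝ) : lp (fun _ : VV => ℝ) 1 :=
  comb (bbox ⌊q.1⌋ ⌊q.2⌋) (wt q)

theorem gg_apply (q : ℝ × ℝ) (v : VV) : gg q v = wt q v := by
  unfold gg
  rw [comb_apply]
  split_ifs with h
  · rfl
  · by_contra hc
    exact h (wt_mem_bbox q q (by simp) v (fun h => hc h.symm))

theorem continuous_gg : Continuous gg := by
  rw [continuous_iff_continuousAt]
  intro q0
  have h1 : ContinuousAt (fun q => comb (bbox ⌊q0.1⌋ ⌊q0.2⌋) (wt q)) q0 := by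
    have := continuousOn_comb (bbox ⌊q0.1⌋ ⌊q0.2⌋) wt Set.univ
      (fun a _ => (continuous_wt a).continuousOn)
    rw [continuousOn_univ] at this
    exact this.continuousAt
  apply h1.congr_of_eventuallyEq
  have : Metric.ball q0 1 ∈ nhds q0 := Metric.ball_mem_nhds q0 one_pos
  filter_upwards [this] with q hq
  rw [Metric.mem_ball, dist_eq_norm] at hq
  apply lp.ext
  ext v
  rw [gg_apply, comb_apply]
  split_ifs with h
  · rfl
  · by_contra hc
    exact h (wt_mem_bbox q q0 hq v hc)

theorem wt_P1 (i j : ℤ) (u v : ℝ) (h0 : 0 ≤ v) (h1 : v ≤ u) (h2 : u ≤ 1) (w : VV) :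
    wt (i + u, j + v) w = if w = (i, j, false) then 1 - u else if w = (i + 1, j, false) then u - v
      else if w = (i + 1, j + 1, false) then v else 0 := by
  obtain ⟨a, b, k⟩ := w
  cases k
  swap
  · simp [wt]
  simp only [wt, Prod.mk.injEq, and_true, Bool.false_eq_true, if_false]
  have key : ∀ t : ℝ, 1 ≤ t → max 0 (1 - t) = 0 := fun t ht => max_eq_left (by linarith)
  rcases lt_trichotomy a i with ha | ha | ha
  · have ha' : (a : ℝ) + 1 ≤ i := by exact_mod_cast ha
    rw [if_neg (by omega), if_neg (by omega), if_neg (by omega)]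
    apply key
    apply le_max_of_le_left
    exact le_trans (by linarith) (le_abs_self _)
  · subst ha
    rcases lt_trichotomy b j with hb | hb | hb
    · have hb' : (b : ℝ) + 1 ≤ j := by exact_mod_cast hb
      rw [if_neg (by omega), if_neg (by omega), if_neg (by omega)]
      apply key
      apply le_max_of_le_right
      apply le_max_of_le_left
      exact le_trans (by linarith) (le_abs_self _)
    · subst hb
      rw [if_pos ⟨rfl, rfl⟩]
      have e1 : |(a : ℝ) + u - a| = u := by rw [add_sub_cancel_left]; exact abs_of_nonneg (by linarith)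
      have e2 : |(b : ℝ) + v - b| = v := by rw [add_sub_cancel_left]; exact abs_of_nonneg h0
      have e3 : |(a : ℝ) + u - a - (b + v - b)| = u - v := by
        rw [add_sub_cancel_left, add_sub_cancel_left]; exact abs_of_nonneg (by linarith)
      rw [e1, e2, e3, max_eq_left (a := u), max_eq_right]
      · linarith
      · exact max_le (by linarith) (by linarith)
    · rcases eq_or_lt_of_le (Int.add_one_le_iff.mpr hb) with hb1 | hb1
      · subst hb1
        rw [if_neg (by omega), if_neg (by omega), if_neg (by omega)]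
        apply key
        apply le_max_of_le_right
        apply le_max_of_le_right
        refine le_trans ?_ (le_abs_self _)
        push_cast
        linarith
      · have hb' : (j : ℝ) + 1 + 1 ≤ b := by exact_mod_cast hb1
        rw [if_neg (by omega), if_neg (by omega), if_neg (by omega)]
        apply key
        apply le_max_of_le_right
        apply le_max_of_le_left
        exact le_trans (by linarith) (neg_le_abs _)
  · rcases eq_or_lt_of_le (Int.add_one_le_iff.mpr ha) with ha1 | ha1
    · subst ha1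
      rcases lt_trichotomy b j with hb | hb | hb
      · have hb' : (b : ℝ) + 1 ≤ j := by exact_mod_cast hb
        rw [if_neg (by omega), if_neg (by omega), if_neg (by omega)]
        apply key
        apply le_max_of_le_right
        apply le_max_of_le_left
        exact le_trans (by linarith) (le_abs_self _)
      · subst hb
        rw [if_neg (by omega), if_pos ⟨rfl, rfl⟩]
        push_cast
        have e1 : |(i : ℝ) + u - (i + 1)| = 1 - u := by
          rw [abs_of_nonpos (by linarith)]; ring
        have e2 : |(b : ℝ) + v - b| = v := by rw [add_sub_cancel_left]; exact abs_of_nonneg h0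
        have e3 : |(i : ℝ) + u - (i + 1) - (b + v - b)| = 1 - u + v := by
          rw [abs_of_nonpos (by linarith)]; ring
        rw [e1, e2, e3, max_eq_right (a := v) (by linarith),
          max_eq_right (a := 1 - u) (b := 1 - u + v) (by linarith), max_eq_right]
        · ring
        · linarith
      · rcases eq_or_lt_of_le (Int.add_one_le_iff.mpr hb) with hb1 | hb1
        · subst hb1
          rw [if_neg (by omega), if_neg (by omega), if_pos ⟨rfl, rfl⟩]
          push_cast
          have e1 : |(i : ℝ) + u - (i + 1)| = 1 - u := by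
            rw [abs_of_nonpos (by linarith)]; ring
          have e2 : |(j : ℝ) + v - (j + 1)| = 1 - v := by
            rw [abs_of_nonpos (by linarith)]; ring
          have e3 : |(i : ℝ) + u - (i + 1) - (j + v - (j + 1))| = u - v := by
            rw [abs_of_nonneg (by linarith)]; ring
          rw [e1, e2, e3, max_eq_left (a := 1 - v) (by linarith),
            max_eq_right (a := 1 - u) (b := 1 - v) (by linarith), max_eq_right]
          · ring
          · linarith
        · have hb' : (j : ℝ) + 1 + 1 ≤ b := by exact_mod_cast hb1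
          rw [if_neg (by omega), if_neg (by omega), if_neg (by omega)]
          apply key
          apply le_max_of_le_right
          apply le_max_of_le_left
          exact le_trans (by linarith) (neg_le_abs _)
    · have ha' : (i : ℝ) + 1 + 1 ≤ a := by exact_mod_cast ha1
      rw [if_neg (by omega), if_neg (by omega), if_neg (by omega)]
      apply key
      apply le_max_of_le_left
      exact le_trans (by linarith) (neg_le_abs _)

theorem wt_P2 (i j : ℤ) (u v : ℝ) (h0 : 0 ≤ u) (h1 : u ≤ v) (h2 : v ≤ 1) (w : VV) :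
    wt (i + u, j + v) w = if w = (i, j, false) then 1 - v else if w = (i, j + 1, false) then v - u
      else if w = (i + 1, j + 1, false) then u else 0 := by
  have h := wt_P1 j i v u h0 h1 h2 (w.2.1, w.1, w.2.2)
  have e : wt (i + u, j + v) w = wt (j + v, i + u) (w.2.1, w.1, w.2.2) := by
    unfold wt
    simp only
    split_ifs
    · rfl
    · congr 2
      rw [← max_assoc, ← max_assoc, max_comm |(i : ℝ) + u - w.1|, abs_sub_comm ((i : ℝ) + u - w.1)]
  rw [e, h]
  obtain ⟨a, b, k⟩ := w
  simp only [Prod.mk.injEq]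
  split_ifs <;> first | rfl | (exfalso; tauto)

/-- Main geometric fact: the barycentre of a point of a closed simplex is sent back to the same
maximal simplex. -/
theorem onTri_gg (i j : ℤ) (l : Fin 4) (f : lp (fun _ : VV => ℝ) 1) (hf : OnTri i j l f) :
    OnTri i j l (gg (bary f)) := by
  obtain ⟨h0, h1, h2⟩ := hf
  rw [bary_eq_sum f _ h1]
  fin_cases l
  · simp only [tri, Fin.zero_eta, Fin.isValue] at h1 h2 ⊢
    rw [Finset.sum_insert (by simp), Finset.sum_insert (by simp), Finset.sum_singleton] at h2
    rw [Finset.sum_insert (by simp), Finset.sum_insert (by simp), Finset.sum_singleton,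
      Finset.sum_insert (by simp), Finset.sum_insert (by simp), Finset.sum_singleton]
    have p0 := h0 (i, j, false)
    have p1 := h0 (i + 1, j, false)
    have p2 := h0 (i + 1, j + 1, false)
    set A := f (i, j, false)
    set B := f (i + 1, j, false)
    set C := f (i + 1, j + 1, false)
    have e1 : A * ((i, j, false) : VV).1 + (B * ((i + 1, j, false) : VV).1 +
        C * ((i + 1, j + 1, false) : VV).1) = i + (B + C) := by
      push_cast
      linear_combination (i : ℝ) * h2
    have e2 : A * ((i, j, false) : VV).2.1 + (B * ((i + 1, j, false) : VV).2.1 +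
        C * ((i + 1, j + 1, false) : VV).2.1) = j + C := by
      push_cast
      linear_combination (j : ℝ) * h2
    rw [e1, e2]
    have hw := wt_P1 i j (B + C) C p2 (by linarith) (by linarith)
    refine ⟨fun v => ?_, fun v hv => ?_, ?_⟩
    · rw [gg_apply]; exact wt_nonneg _ _
    · rw [gg_apply, hw v]
      simp only [tri, Finset.mem_insert, Finset.mem_singleton, not_or] at hv
      rw [if_neg hv.1, if_neg hv.2.1, if_neg hv.2.2]
    · simp only [tri]
      rw [Finset.sum_insert (by simp), Finset.sum_insert (by simp), Finset.sum_singleton]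
      rw [gg_apply, gg_apply, gg_apply, hw, hw, hw]
      simp
  · simp only [tri, Fin.mk_one, Fin.isValue] at h1 h2 ⊢
    rw [Finset.sum_insert (by simp), Finset.sum_insert (by simp), Finset.sum_singleton] at h2
    rw [Finset.sum_insert (by simp), Finset.sum_insert (by simp), Finset.sum_singleton,
      Finset.sum_insert (by simp), Finset.sum_insert (by simp), Finset.sum_singleton]
    have p0 := h0 (i, j, false)
    have p1 := h0 (i, j + 1, false)
    have p2 := h0 (i + 1, j + 1, false)
    set A := f (i, j, false)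
    set B := f (i, j + 1, false)
    set C := f (i + 1, j + 1, false)
    have e1 : A * ((i, j, false) : VV).1 + (B * ((i, j + 1, false) : VV).1 +
        C * ((i + 1, j + 1, false) : VV).1) = i + C := by
      push_cast
      linear_combination (i : ℝ) * h2
    have e2 : A * ((i, j, false) : VV).2.1 + (B * ((i, j + 1, false) : VV).2.1 +
        C * ((i + 1, j + 1, false) : VV).2.1) = j + (B + C) := by
      push_cast
      linear_combination (j : ℝ) * h2
    rw [e1, e2]
    have hw := wt_P2 i j C (B + C) p2 (by linarith) (by linarith)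
    refine ⟨fun v => ?_, fun v hv => ?_, ?_⟩
    · rw [gg_apply]; exact wt_nonneg _ _
    · rw [gg_apply, hw v]
      simp only [tri, Finset.mem_insert, Finset.mem_singleton, not_or] at hv
      rw [if_neg hv.1, if_neg hv.2.1, if_neg hv.2.2]
    · simp only [tri]
      rw [Finset.sum_insert (by simp), Finset.sum_insert (by simp), Finset.sum_singleton]
      rw [gg_apply, gg_apply, gg_apply, hw, hw, hw]
      simp
  · simp only [tri, Fin.reduceFinMk, Fin.isValue] at h1 h2 ⊢
    rw [Finset.sum_insert (by simp), Finset.sum_insert (by simp), Finset.sum_singleton] at h2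
    rw [Finset.sum_insert (by simp), Finset.sum_insert (by simp), Finset.sum_singleton,
      Finset.sum_insert (by simp), Finset.sum_insert (by simp), Finset.sum_singleton]
    have p0 := h0 (i, j, true)
    have p1 := h0 (i, j, false)
    have p2 := h0 (i, j + 1, false)
    set A := f (i, j, true)
    set B := f (i, j, false)
    set C := f (i, j + 1, false)
    have e1 : A * ((i, j, true) : VV).1 + (B * ((i, j, false) : VV).1 +
        C * ((i, j + 1, false) : VV).1) = i + 0 := by
      push_cast
      linear_combination (i : ℝ) * h2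
    have e2 : A * ((i, j, true) : VV).2.1 + (B * ((i, j, false) : VV).2.1 +
        C * ((i, j + 1, false) : VV).2.1) = j + C := by
      push_cast
      linear_combination (j : ℝ) * h2
    rw [e1, e2]
    have hw := wt_P2 i j 0 C le_rfl p2 (by linarith)
    refine ⟨fun v => ?_, fun v hv => ?_, ?_⟩
    · rw [gg_apply]; exact wt_nonneg _ _
    · rw [gg_apply, hw v]
      simp only [tri, Finset.mem_insert, Finset.mem_singleton, not_or] at hv
      rw [if_neg hv.2.1, if_neg hv.2.2]
      split_ifs <;> rfl
    · simp only [tri]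
      rw [Finset.sum_insert (by simp), Finset.sum_insert (by simp), Finset.sum_singleton]
      rw [gg_apply, gg_apply, gg_apply, hw, hw, hw]
      simp
  · have hne : ¬ j = j - 1 := by omega
    simp only [tri, Fin.reduceFinMk, Fin.isValue] at h1 h2 ⊢
    rw [Finset.sum_insert (by simp [hne]), Finset.sum_insert (by simp [hne]), Finset.sum_singleton] at h2
    rw [Finset.sum_insert (by simp [hne]), Finset.sum_insert (by simp [hne]), Finset.sum_singleton,
      Finset.sum_insert (by simp [hne]), Finset.sum_insert (by simp [hne]), Finset.sum_singleton]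
    have p0 := h0 (i, j, true)
    have p1 := h0 (i, j, false)
    have p2 := h0 (i, j - 1, false)
    set A := f (i, j, true)
    set B := f (i, j, false)
    set C := f (i, j - 1, false)
    have e1 : A * ((i, j, true) : VV).1 + (B * ((i, j, false) : VV).1 +
        C * ((i, j - 1, false) : VV).1) = i + 0 := by
      push_cast
      linear_combination (i : ℝ) * h2
    have e2 : A * ((i, j, true) : VV).2.1 + (B * ((i, j, false) : VV).2.1 +
        C * ((i, j - 1, false) : VV).2.1) = (j - 1 : ℤ) + (1 - C) := by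
      push_cast
      linear_combination (j : ℝ) * h2
    rw [e1, e2]
    have hw := wt_P2 i (j - 1) 0 (1 - C) le_rfl (by linarith) (by linarith)
    refine ⟨fun v => ?_, fun v hv => ?_, ?_⟩
    · rw [gg_apply]; exact wt_nonneg _ _
    · rw [gg_apply, hw v]
      simp only [tri, Finset.mem_insert, Finset.mem_singleton, not_or] at hv
      rw [if_neg hv.2.2, sub_add_cancel, if_neg hv.2.1]
      split_ifs <;> rfl
    · simp only [tri]
      rw [Finset.sum_insert (by simp [hne]), Finset.sum_insert (by simp [hne]), Finset.sum_singleton]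
      rw [gg_apply, gg_apply, gg_apply, hw, hw, hw]
      simp [hne]

theorem gg_mem (q : ℝ × ℝ) : gg q ∈ XX := by
  rw [mem_XX_iff]
  obtain ⟨x, y⟩ := q
  have hx : x = ⌊x⌋ + Int.fract x := (Int.floor_add_fract x).symm
  have hy : y = ⌊y⌋ + Int.fract y := (Int.floor_add_fract y).symm
  have fx0 := Int.fract_nonneg x
  have fy0 := Int.fract_nonneg y
  have fx1 := (Int.fract_lt_one x).le
  have fy1 := (Int.fract_lt_one y).le
  generalize ⌊x⌋ = i at *
  generalize ⌊y⌋ = j at *
  generalize Int.fract x = u at *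
  generalize Int.fract y = v at *
  subst hx
  subst hy
  rcases le_total v u with h | h
  · have hw := wt_P1 i j u v fy0 h fx1
    refine ⟨i, j, 0, fun w => ?_, fun w hv => ?_, ?_⟩
    · rw [gg_apply]; exact wt_nonneg _ _
    · rw [gg_apply, hw w]
      simp only [tri, Finset.mem_insert, Finset.mem_singleton, not_or] at hv
      rw [if_neg hv.1, if_neg hv.2.1, if_neg hv.2.2]
    · simp only [tri]
      rw [Finset.sum_insert (by simp), Finset.sum_insert (by simp), Finset.sum_singleton]
      rw [gg_apply, gg_apply, gg_apply, hw, hw, hw]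
      simp
  · have hw := wt_P2 i j u v fx0 h fy1
    refine ⟨i, j, 1, fun w => ?_, fun w hv => ?_, ?_⟩
    · rw [gg_apply]; exact wt_nonneg _ _
    · rw [gg_apply, hw w]
      simp only [tri, Finset.mem_insert, Finset.mem_singleton, not_or] at hv
      rw [if_neg hv.1, if_neg hv.2.1, if_neg hv.2.2]
    · simp only [tri]
      rw [Finset.sum_insert (by simp), Finset.sum_insert (by simp), Finset.sum_singleton]
      rw [gg_apply, gg_apply, gg_apply, hw, hw, hw]
      simp

/-- The realization is contractible. -/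
theorem contractible_XX : ContractibleSpace XX := by
  -- maps
  let B : C(XX, ℝ × ℝ) := ⟨fun f => bary f.1, continuousOn_iff_continuous_domRestrict.mp continuousOn_bary⟩
  let Gm : C(ℝ × ℝ, XX) := ⟨fun q => ⟨gg q, gg_mem q⟩, continuous_gg.subtype_mk _⟩
  have hhom : (ContinuousMap.id XX).Homotopic (Gm.comp B) := by
    refine ⟨⟨⟨fun p => ⟨(1 - (p.1 : ℝ)) • p.2.1 + (p.1 : ℝ) • gg (bary p.2.1), ?_⟩, ?_⟩, ?_, ?_⟩⟩
    · obtain ⟨t, f, hf⟩ := p
      obtain ⟨i, j, l, h⟩ := (mem_XX_iff f).mp hf
      rw [mem_XX_iff]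
      exact ⟨i, j, l, h.convex (onTri_gg i j l f h) t t.2.1 t.2.2⟩
    · apply Continuous.subtype_mk
      have h1 : Continuous (fun p : unitInterval × XX => (p.1 : ℝ)) :=
        continuous_subtype_val.comp continuous_fst
      have h2 : Continuous (fun p : unitInterval × XX => (p.2.1 : lp (fun _ : VV => ℝ) 1)) :=
        continuous_subtype_val.comp continuous_snd
      have h3 : Continuous (fun p : unitInterval × XX => gg (bary p.2.1)) :=
        continuous_gg.comp (B.continuous.comp continuous_snd)
      exact ((continuous_const.sub h1).smul h2).add (h1.smul h3)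
    · intro f
      apply Subtype.ext
      simp
    · intro f
      apply Subtype.ext
      have h : (1 - ((1 : unitInterval) : ℝ)) • f.1 + ((1 : unitInterval) : ℝ) • gg (bary f.1)
          = gg (bary f.1) := by simp
      exact h
  have hnull : (Gm.comp B).Nullhomotopic := by
    have h1 : (ContinuousMap.id (ℝ × ℝ)).Nullhomotopic := id_nullhomotopic (ℝ × ℝ)
    obtain ⟨q, hq⟩ := h1
    refine ⟨Gm q, ?_⟩
    have h2 : ((Gm.comp (ContinuousMap.id (ℝ × ℝ))).comp B).Homotopic
        ((Gm.comp (ContinuousMap.const (ℝ × ℝ) q)).comp B) :=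
      ContinuousMap.Homotopic.comp (ContinuousMap.Homotopic.comp (ContinuousMap.Homotopic.refl _) hq)
        (ContinuousMap.Homotopic.refl _)
    exact h2
  rw [contractible_iff_id_nullhomotopic]
  obtain ⟨y, hy⟩ := hnull
  exact ⟨y, hhom.trans hy⟩

end Pool.Agent.Lib.MP_6cd968_gt
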