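import Mathlib

set_option autoImplicit false

namespace Pool.Agent.Lib.MP_6cd968_gt

variable {α : Type}

theorem summable_abs (f : lp (fun _ : α => ℝ) 1) : Summable (fun a => |f a|) := by
  have h := (lp.memℓp f).summable (by norm_num)
  simpa using h

theorem norm_eq_tsum_abs (f : lp (fun _ : α => ℝ) 1) : ‖f‖ = ∑' a, |f a| := by
  have h := lp.norm_eq_tsum_rpow (p := 1) (by norm_num) f
  simpa using h

theorem summable_pair (φ : α → ℝ) (hφ : ∀ a, |φ a| ≤ 1) (f : lp (fun _ : α => ℝ) 1) :
    Summable (fun a => f a * φ a) := by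
  apply Summable.of_norm_bounded (summable_abs f)
  intro a
  rw [Real.norm_eq_abs, abs_mul]
  have := hφ a
  have h0 := abs_nonneg (f a)
  nlinarith

/-- pairing of `ℓ¹` with a bounded function -/
noncomputable def pairL (φ : α → ℝ) (hφ : ∀ a, |φ a| ≤ 1) : lp (fun _ : α => ℝ) 1 →L[ℝ] ℝ :=
  LinearMap.mkContinuous
    { toFun := fun f => ∑' a, f a * φ a
      map_add' := by
        intro f g
        rw [← (summable_pair φ hφ f).tsum_add (summable_pair φ hφ g)]
        congr 1
        ext a
        rw [lp.coeFn_add, Pi.add_apply]; ring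
      map_smul' := by
        intro c f
        rw [RingHom.id_apply, smul_eq_mul, ← tsum_mul_left]
        congr 1
        ext a
        rw [lp.coeFn_smul, Pi.smul_apply, smul_eq_mul]; ring } 1 (by
      intro f
      simp only [LinearMap.coe_mk, AddHom.coe_mk, one_mul]
      rw [norm_eq_tsum_abs, Real.norm_eq_abs]
      have h1 : Summable (fun a => |f a * φ a|) := (summable_pair φ hφ f).abs
      have h2 : |∑' a, f a * φ a| ≤ ∑' a, |f a * φ a| := by
        have := norm_tsum_le_tsum_norm (f := fun a => f a * φ a) (by simpa using h1)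
        simpa [Real.norm_eq_abs] using this
      refine h2.trans (h1.tsum_le_tsum ?_ (summable_abs f))
      intro a
      rw [abs_mul]
      have := hφ a
      have h0 := abs_nonneg (f a)
      nlinarith)

theorem pairL_apply (φ : α → ℝ) (hφ : ∀ a, |φ a| ≤ 1) (f : lp (fun _ : α => ℝ) 1) :
    pairL φ hφ f = ∑' a, f a * φ a := rfl

theorem pairL_eq_sum (φ : α → ℝ) (hφ : ∀ a, |φ a| ≤ 1) (f : lp (fun _ : α => ℝ) 1)
    (s : Finset α) (hs : ∀ a, a ∉ s → f a = 0) : pairL φ hφ f = ∑ a ∈ s, f a * φ a := by
  rw [pairL_apply, tsum_eq_sum]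
  intro a ha
  rw [hs a ha, zero_mul]

theorem coeFn_sum' {ι : Type*} (F : ι → lp (fun _ : α => ℝ) 1) (s : Finset ι) (a : α) :
    (∑ i ∈ s, F i : lp (fun _ : α => ℝ) 1) a = ∑ i ∈ s, F i a := by
  rw [lp.coeFn_sum, Finset.sum_apply]

theorem continuous_eval (a : α) : Continuous (fun f : lp (fun _ : α => ℝ) 1 => f a) :=
  (lp.evalCLM ℝ (fun _ : α => ℝ) 1 a).continuous

open Classical in
/-- finite combination of deltas -/
noncomputable def comb (A : Finset α) (c : α → ℝ) : lp (fun _ : α => ℝ) 1 :=
  ∑ a ∈ A, lp.single 1 a (c a)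

open Classical in
theorem comb_apply (A : Finset α) (c : α → ℝ) (b : α) :
    comb A c b = if b ∈ A then c b else 0 := by
  unfold comb
  rw [coeFn_sum']
  by_cases hb : b ∈ A
  · rw [if_pos hb, Finset.sum_eq_single b]
    · rw [lp.single_apply_self]
    · intro a _ hab
      rw [lp.single_apply_ne _ _ _ hab.symm]
    · intro h; exact absurd hb h
  · rw [if_neg hb]
    apply Finset.sum_eq_zero
    intro a ha
    rw [lp.single_apply_ne]
    rintro rfl; exact hb ha

open Classical in
theorem continuousOn_comb {X : Type*} [TopologicalSpace X] (A : Finset α) (c : X → α → ℝ)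
    (s : Set X) (hc : ∀ a ∈ A, ContinuousOn (fun x => c x a) s) :
    ContinuousOn (fun x => comb A (c x)) s := by
  unfold comb
  apply continuousOn_finsetSum
  intro a ha
  exact (lp.isometry_single (E := fun _ : α => ℝ) (p := 1) a).continuous.comp_continuousOn (hc a ha)

end Pool.Agent.Lib.MP_6cd968_gt
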