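import Pool.Agent.Lib.MP_6cd968_gt.Geo2

set_option autoImplicit false

namespace Pool.Agent.Lib.MP_6cd968_gt

/-- vertices of the `n`-th big closed square -/
noncomputable def AA (n : ℕ) : Finset VV :=
  Finset.Icc ((n : ℤ) ^ 2 - n) ((n : ℤ) ^ 2 + n) ×ˢ (Finset.Icc (-(n : ℤ)) n ×ˢ Finset.univ)

theorem mem_AA (n : ℕ) (v : VV) : v ∈ AA n ↔ |v.1 - (n : ℤ) ^ 2| ≤ n ∧ |v.2.1| ≤ n := by
  simp only [AA, Finset.mem_product, Finset.mem_Icc, Finset.mem_univ, and_true, abs_le]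
  constructor
  · rintro ⟨⟨h1, h2⟩, h3, h4⟩
    exact ⟨⟨by linarith, by linarith⟩, h3, h4⟩
  · rintro ⟨⟨h1, h2⟩, h3, h4⟩
    exact ⟨⟨by linarith, by linarith⟩, h3, h4⟩

theorem abs_xc_le (n : ℕ) (hn : 0 < n) (v : VV) (h : |v.1 - (n : ℤ) ^ 2| ≤ n) : |xc n v| ≤ 1 := by
  have hn' : (0 : ℝ) < n := by exact_mod_cast hn
  unfold xc
  rw [abs_div, abs_of_pos hn', div_le_one hn']
  exact_mod_cast h

theorem abs_yc_le (n : ℕ) (hn : 0 < n) (v : VV) (h : |v.2.1| ≤ n) : |yc n v| ≤ 1 := by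
  have hn' : (0 : ℝ) < n := by exact_mod_cast hn
  unfold yc
  rw [abs_div, abs_of_pos hn', div_le_one hn']
  exact_mod_cast h

theorem exists_sheet (i j t : ℤ) (ht : t = 0 ∨ t = 1) : ∃ k : Bool, sh (i, j, k) = t := by
  by_cases h : j % 2 = t
  · exact ⟨false, by simp only [sh, ev]; simpa using h⟩
  · refine ⟨true, ?_⟩
    simp only [sh, ev, if_true]
    omega

theorem cover (n : ℕ) (hn : 0 < n) (q : ℝ × ℝ × ℝ) (hq : nu q = 1) :
    ∃ v ∈ AA n, ‖q - pN n v‖ < 1 / n := by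
  have hn' : (0 : ℝ) < n := by exact_mod_cast hn
  obtain ⟨X, Y, Z⟩ := q
  unfold nu at hq
  simp only at hq
  have hX : |X| ≤ 1 := by
    have := le_max_left |X| |Y|
    have := abs_nonneg Z
    linarith
  have hY : |Y| ≤ 1 := by
    have := le_max_right |X| |Y|
    have := abs_nonneg Z
    linarith
  obtain ⟨k, hk⟩ := exists_sheet ((n : ℤ) ^ 2 + ⌊n * X⌋) ⌊n * Y⌋ (if 0 ≤ Z then 0 else 1)
    (by split_ifs <;> simp)
  set v : VV := ((n : ℤ) ^ 2 + ⌊n * X⌋, ⌊n * Y⌋, k) with hv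
  have fX1 := Int.floor_le ((n : ℝ) * X)
  have fX2 := Int.lt_floor_add_one ((n : ℝ) * X)
  have fY1 := Int.floor_le ((n : ℝ) * Y)
  have fY2 := Int.lt_floor_add_one ((n : ℝ) * Y)
  have fl : ∀ t : ℝ, |t| ≤ 1 → |⌊(n : ℝ) * t⌋| ≤ (n : ℤ) := by
    intro t ht
    rw [abs_le] at ht ⊢
    constructor
    · rw [Int.le_floor]
      push_cast
      nlinarith
    · have h1 : (⌊(n : ℝ) * t⌋ : ℝ) ≤ n := (Int.floor_le _).trans (by nlinarith)
      exact_mod_cast h1
  have hxv : |v.1 - (n : ℤ) ^ 2| ≤ n := by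
    show |(n : ℤ) ^ 2 + ⌊n * X⌋ - (n : ℤ) ^ 2| ≤ n
    rw [add_sub_cancel_left]
    exact fl X hX
  have hyv : |v.2.1| ≤ n := fl Y hY
  refine ⟨v, (mem_AA n v).mpr ⟨hxv, hyv⟩, ?_⟩
  have hxc : xc n v = ⌊(n : ℝ) * X⌋ / n := by
    show ((((n : ℤ) ^ 2 + ⌊n * X⌋ : ℤ) : ℝ) - (n : ℝ) ^ 2) / n = _
    push_cast
    congr 1
    ring
  have hyc : yc n v = ⌊(n : ℝ) * Y⌋ / n := rfl
  have dX : |X - xc n v| < 1 / n := by
    rw [hxc]
    have : X - ⌊(n : ℝ) * X⌋ / n = (n * X - ⌊(n : ℝ) * X⌋) / n := by field_simp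
    rw [this, abs_div, abs_of_pos hn']
    apply div_lt_div_of_pos_right _ hn'
    rw [abs_of_nonneg (by linarith)]
    linarith
  have dY : |Y - yc n v| < 1 / n := by
    rw [hyc]
    have : Y - ⌊(n : ℝ) * Y⌋ / n = (n * Y - ⌊(n : ℝ) * Y⌋) / n := by field_simp
    rw [this, abs_div, abs_of_pos hn']
    apply div_lt_div_of_pos_right _ hn'
    rw [abs_of_nonneg (by linarith)]
    linarith
  have hZ : Z = sgn v * ht X Y := by
    have h1 : ht X Y = |Z| := by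
      unfold ht
      rw [max_eq_right]
      · linarith
      · have := abs_nonneg Z
        linarith
    rw [h1]
    unfold sgn
    rw [hk]
    by_cases hz : 0 ≤ Z
    · rw [if_pos hz, if_pos rfl, abs_of_nonneg hz, one_mul]
    · rw [if_neg hz, if_neg (by norm_num), abs_of_neg (not_le.mp hz)]; ring
  rw [norm3]
  show max |X - cl (xc n v)| (max |Y - cl (yc n v)| |Z - sgn v * ht (xc n v) (yc n v)|) < 1 / n
  rw [cl_of_le _ (abs_xc_le n hn v hxv), cl_of_le _ (abs_yc_le n hn v hyv)]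
  refine max_lt dX (max_lt dY ?_)
  rw [hZ, ← mul_sub, abs_mul, abs_sgn, one_mul]
  exact (ht_lip _ _ _ _).trans_lt (max_lt dX dY)

theorem seam_of_ht (n : ℕ) (hn : 0 < n) (v : VV) (hv : v ∈ AA n)
    (h : ht (xc n v) (yc n v) < 1 / n) : ¬ Inside v.1 v.2.1 := by
  have hn' : (0 : ℝ) < n := by exact_mod_cast hn
  rw [mem_AA] at hv
  apply not_inside_seam n v.1 v.2.1 hv.1
  by_contra hc
  push Not at hc
  have h1 : |v.1 - (n : ℤ) ^ 2| ≤ n - 1 := by
    have := lt_of_le_of_ne hv.1 hc.1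
    omega
  have h2 : |v.2.1| ≤ n - 1 := by
    have := lt_of_le_of_ne hv.2 hc.2
    omega
  have h3 : |xc n v| ≤ 1 - 1 / n := by
    unfold xc
    rw [abs_div, abs_of_pos hn', div_le_iff₀ hn', sub_mul, one_div_mul_cancel hn'.ne', one_mul]
    exact_mod_cast h1
  have h4 : |yc n v| ≤ 1 - 1 / n := by
    unfold yc
    rw [abs_div, abs_of_pos hn', div_le_iff₀ hn', sub_mul, one_div_mul_cancel hn'.ne', one_mul]
    exact_mod_cast h2
  have h5 : 1 / (n : ℝ) ≤ ht (xc n v) (yc n v) := by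
    unfold ht
    refine le_trans ?_ (le_max_right _ _)
    have := max_le h3 h4
    linarith
  linarith

theorem close (n : ℕ) (hn : 0 < n) (u v : VV) (hu : u ∈ AA n) (hv : v ∈ AA n)
    (h : ‖pN n u - pN n v‖ < 2 / n) : dd u v ≤ 4 := by
  have hn' : (0 : ℝ) < n := by exact_mod_cast hn
  have hu' := (mem_AA n u).mp hu
  have hv' := (mem_AA n v).mp hv
  rw [norm3] at h
  have h' : max |cl (xc n u) - cl (xc n v)| (max |cl (yc n u) - cl (yc n v)|
    |sgn u * ht (xc n u) (yc n u) - sgn v * ht (xc n v) (yc n v)|) < 2 / n := h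
  rw [cl_of_le _ (abs_xc_le n hn u hu'.1), cl_of_le _ (abs_yc_le n hn u hu'.2),
    cl_of_le _ (abs_xc_le n hn v hv'.1), cl_of_le _ (abs_yc_le n hn v hv'.2)] at h'
  rw [max_lt_iff, max_lt_iff] at h'
  obtain ⟨h1, h2, h3⟩ := h'
  have g1 : |u.1 - v.1| ≤ 1 := by
    have e : xc n u - xc n v = ((u.1 - v.1 : ℤ) : ℝ) / n := by
      unfold xc; push_cast; ring
    rw [e, abs_div, abs_of_pos hn', div_lt_div_iff_of_pos_right hn'] at h1
    have h4 : |u.1 - v.1| < 2 := by exact_mod_cast h1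
    omega
  have g2 : |u.2.1 - v.2.1| ≤ 1 := by
    have e : yc n u - yc n v = ((u.2.1 - v.2.1 : ℤ) : ℝ) / n := by
      unfold yc; push_cast; ring
    rw [e, abs_div, abs_of_pos hn', div_lt_div_iff_of_pos_right hn'] at h2
    have h4 : |u.2.1 - v.2.1| < 2 := by exact_mod_cast h2
    omega
  by_cases hs : sh u = sh v
  · exact (dd_same u v g1 g2 hs).trans (by norm_num)
  · have p1 := ht_nonneg (xc n u) (yc n u)
    have p2 := ht_nonneg (xc n v) (yc n v)
    have h4 : ht (xc n u) (yc n u) + ht (xc n v) (yc n v) < 2 / n := by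
      have h5 : sgn u = - sgn v := by
        unfold sgn
        rcases sh_cases u with h6 | h6 <;> rcases sh_cases v with h7 | h7
        · exact absurd (h6.trans h7.symm) hs
        · rw [h6, h7]; norm_num
        · rw [h6, h7]; norm_num
        · exact absurd (h6.trans h7.symm) hs
      have h6 : sgn u * ht (xc n u) (yc n u) - sgn v * ht (xc n v) (yc n v) =
          -(sgn v * (ht (xc n u) (yc n u) + ht (xc n v) (yc n v))) := by
        rw [h5]; ring
      rw [h6, abs_neg, abs_mul, abs_sgn, one_mul, abs_of_nonneg (by linarith)] at h3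
      exact h3
    have h5 : 2 / (n : ℝ) = 1 / n + 1 / n := by ring
    rcases lt_or_ge (ht (xc n u) (yc n u)) (1 / n) with h6 | h6
    · exact dd_seam u v g1 g2 (seam_of_ht n hn u hu h6)
    · have h7 : ht (xc n v) (yc n v) < 1 / n := by linarith
      rw [dd_comm]
      refine dd_seam v u ?_ ?_ (seam_of_ht n hn v hv h7)
      · rw [abs_sub_comm]; exact g1
      · rw [abs_sub_comm]; exact g2

/-- The counterexample: for every `R'` there is a 2-sphere in the `4`-Rips complex of the vertex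
set of `YY` that does not bound a ball in the `R'`-Rips complex. -/
theorem main_sphere (R' : ℝ) (hR' : 0 ≤ R') :
    ∃ γ : EuclideanSpace ℝ (Fin (2 + 1)) → lp (fun _ : YY.verts => ℝ) 1,
      ContinuousOn γ (Metric.sphere (0 : EuclideanSpace ℝ (Fin (2 + 1))) 1) ∧
      Set.MapsTo γ (Metric.sphere (0 : EuclideanSpace ℝ (Fin (2 + 1))) 1)
        {f : lp (fun _ : YY.verts => ℝ) 1 | (∀ a, 0 ≤ f a) ∧
          ∃ s : Finset YY.verts, (∀ a, a ∉ s → f a = 0) ∧ ∑ a ∈ s, f a = 1 ∧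
            ∀ a ∈ s, ∀ b ∈ s, (YY.coe.dist a b : ℝ) ≤ 4} ∧
      ∀ Γ : EuclideanSpace ℝ (Fin (2 + 1)) → lp (fun _ : YY.verts => ℝ) 1,
        ContinuousOn Γ (Metric.closedBall (0 : EuclideanSpace ℝ (Fin (2 + 1))) 1) →
        Set.MapsTo Γ (Metric.closedBall (0 : EuclideanSpace ℝ (Fin (2 + 1))) 1)
          {f : lp (fun _ : YY.verts => ℝ) 1 | (∀ a, 0 ≤ f a) ∧
            ∃ s : Finset YY.verts, (∀ a, a ∉ s → f a = 0) ∧ ∑ a ∈ s, f a = 1 ∧
              ∀ a ∈ s, ∀ b ∈ s, (YY.coe.dist a b : ℝ) ≤ R'} →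
        ¬ Set.EqOn Γ γ (Metric.sphere (0 : EuclideanSpace ℝ (Fin (2 + 1))) 1) := by
  obtain ⟨n, hn⟩ := exists_nat_gt (max 3 (2 * R'))
  have hn3 : (3 : ℝ) < n := (le_max_left _ _).trans_lt hn
  have hn3' : 3 ≤ n := by exact_mod_cast hn3.le
  have hnR : 2 * R' < n := (le_max_right _ _).trans_lt hn
  have hn0 : 0 < n := by omega
  have hn0' : (0 : ℝ) < n := by linarith
  refine obstruction (fun a b : YY.verts => YY.coe.dist a b) 4 n hn3' (fun a => pN n a.1)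
    ((AA n).map ⟨up, up_inj⟩) (fun a => pN_le n a.1) (fun a => le_pN n a.1) (pN_dist n hn0)
    ?_ ?_ R' ?_
  · intro q hq
    obtain ⟨v, hv, h⟩ := cover n hn0 q hq
    refine ⟨up v, ?_, h⟩
    rw [Finset.mem_map]
    exact ⟨v, hv, rfl⟩
  · intro a ha b hb hab
    rw [Finset.mem_map] at ha hb
    obtain ⟨u, hu, rfl⟩ := ha
    obtain ⟨v, hv, rfl⟩ := hb
    have := close n hn0 u v hu hv hab
    have h2 : YY.coe.dist (up u) (up v) ≤ 4 := this
    show ((YY.coe.dist (up u) (up v) : ℕ) : ℝ) ≤ 4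
    exact_mod_cast h2
  · rw [div_lt_iff₀ hn0']
    linarith

end Pool.Agent.Lib.MP_6cd968_gt
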