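import Pool.Agent.Lib.MP_6cd968_gt.NRBdry

set_option autoImplicit false

namespace Pool.Agent.Lib.MP_6cd968_gt

/-- octahedral label of a vector -/
noncomputable def lab (y : ℝ × ℝ × ℝ) : ℤ × ℤ × ℤ :=
  if |y.2.1| ≤ |y.1| ∧ |y.2.2| ≤ |y.1| then (if 0 ≤ y.1 then (1, 0, 0) else (-1, 0, 0))
  else if |y.2.2| ≤ |y.2.1| then (if 0 ≤ y.2.1 then (0, 1, 0) else (0, -1, 0))
  else (if 0 ≤ y.2.2 then (0, 0, 1) else (0, 0, -1))

theorem norm3 (y : ℝ × ℝ × ℝ) : ‖y‖ = max |y.1| (max |y.2.1| |y.2.2|) := by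
  rw [Prod.norm_def, Prod.norm_def, Real.norm_eq_abs, Real.norm_eq_abs, Real.norm_eq_abs]

theorem lab_cases (y : ℝ × ℝ × ℝ) :
    (lab y = (1, 0, 0) ∧ y.1 = ‖y‖) ∨ (lab y = (-1, 0, 0) ∧ y.1 = -‖y‖) ∨
    (lab y = (0, 1, 0) ∧ y.2.1 = ‖y‖) ∨ (lab y = (0, -1, 0) ∧ y.2.1 = -‖y‖) ∨
    (lab y = (0, 0, 1) ∧ y.2.2 = ‖y‖) ∨ (lab y = (0, 0, -1) ∧ y.2.2 = -‖y‖) := by
  rw [norm3]
  unfold lab
  split_ifs with h1 h2 h3 h4 h5
  · left
    refine ⟨rfl, ?_⟩
    rw [max_eq_left (max_le h1.1 h1.2), abs_of_nonneg h2]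
  · right; left
    refine ⟨rfl, ?_⟩
    rw [max_eq_left (max_le h1.1 h1.2), abs_of_neg (not_le.mp h2)]; ring
  · right; right; left
    refine ⟨rfl, ?_⟩
    have h6 : |y.1| ≤ |y.2.1| := by
      by_contra h
      push Not at h
      exact h1 ⟨h.le, h3.trans h.le⟩
    rw [max_eq_left h3, max_eq_right h6, abs_of_nonneg h4]
  · right; right; right; left
    refine ⟨rfl, ?_⟩
    have h6 : |y.1| ≤ |y.2.1| := by
      by_contra h
      push Not at h
      exact h1 ⟨h.le, h3.trans h.le⟩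
    rw [max_eq_left h3, max_eq_right h6, abs_of_neg (not_le.mp h4)]; ring
  · right; right; right; right; left
    refine ⟨rfl, ?_⟩
    push Not at h3
    have h6 : |y.1| ≤ |y.2.2| := by
      by_contra h
      push Not at h
      exact h1 ⟨h3.le.trans h.le, h.le⟩
    rw [max_eq_right h3.le, max_eq_right h6, abs_of_nonneg h5]
  · right; right; right; right; right
    refine ⟨rfl, ?_⟩
    push Not at h3
    have h6 : |y.1| ≤ |y.2.2| := by
      by_contra h
      push Not at h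
      exact h1 ⟨h3.le.trans h.le, h.le⟩
    rw [max_eq_right h3.le, max_eq_right h6, abs_of_neg (not_le.mp h5)]; ring

theorem abs_sub_le_dist1 (y z : ℝ × ℝ × ℝ) : y.1 - z.1 ≤ dist y z := by
  rw [dist_eq_norm, norm3]
  exact (le_abs_self _).trans (le_max_left _ _)

theorem abs_sub_le_dist2 (y z : ℝ × ℝ × ℝ) : y.2.1 - z.2.1 ≤ dist y z := by
  rw [dist_eq_norm, norm3]
  exact (le_abs_self _).trans ((le_max_left _ _).trans (le_max_right _ _))

theorem abs_sub_le_dist3 (y z : ℝ × ℝ × ℝ) : y.2.2 - z.2.2 ≤ dist y z := by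
  rw [dist_eq_norm, norm3]
  exact (le_abs_self _).trans ((le_max_right _ _).trans (le_max_right _ _))

open Classical in
/-- Labels of a set of vectors of norm at least `ε` and pairwise distance less than `ε` lie in a
common affine plane. -/
theorem exists_plane (C : Set (ℝ × ℝ × ℝ)) (ε : ℝ) (hε : 0 < ε) (hC : ∀ y ∈ C, ε ≤ ‖y‖)
    (hd : ∀ y ∈ C, ∀ z ∈ C, dist y z < ε) :
    ∃ s : ℤ × ℤ × ℤ, s.1 ≠ 0 ∧ ∀ y ∈ C, dot s (lab y) = 1 := by
  refine ⟨(if ∃ y ∈ C, lab y = (-1, 0, 0) then -1 else 1,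
    if ∃ y ∈ C, lab y = (0, -1, 0) then -1 else 1,
    if ∃ y ∈ C, lab y = (0, 0, -1) then -1 else 1), ?_, ?_⟩
  · split_ifs <;> norm_num
  intro y hy
  rcases lab_cases y with ⟨h, h'⟩ | ⟨h, h'⟩ | ⟨h, h'⟩ | ⟨h, h'⟩ | ⟨h, h'⟩ | ⟨h, h'⟩
  · rw [if_neg (c := ∃ y ∈ C, lab y = (-1, 0, 0))]
    · simp [dot, h]
    · rintro ⟨z, hz, hz'⟩
      rcases lab_cases z with ⟨g, g'⟩ | ⟨g, g'⟩ | ⟨g, g'⟩ | ⟨g, g'⟩ | ⟨g, g'⟩ | ⟨g, g'⟩ <;>
        rw [hz'] at g <;> simp at g
      have h1 := abs_sub_le_dist1 y z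
      have h2 := hd y hy z hz
      have h3 := hC y hy
      have h4 := hC z hz
      linarith
  · rw [if_pos (c := ∃ y ∈ C, lab y = (-1, 0, 0)) ⟨y, hy, h⟩]
    simp [dot, h]
  · rw [if_neg (c := ∃ y ∈ C, lab y = (0, -1, 0))]
    · simp [dot, h]
    · rintro ⟨z, hz, hz'⟩
      rcases lab_cases z with ⟨g, g'⟩ | ⟨g, g'⟩ | ⟨g, g'⟩ | ⟨g, g'⟩ | ⟨g, g'⟩ | ⟨g, g'⟩ <;>
        rw [hz'] at g <;> simp at g
      have h1 := abs_sub_le_dist2 y z
      have h2 := hd y hy z hz
      have h3 := hC y hy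
      have h4 := hC z hz
      linarith
  · rw [if_pos (c := ∃ y ∈ C, lab y = (0, -1, 0)) ⟨y, hy, h⟩]
    simp [dot, h]
  · rw [if_neg (c := ∃ y ∈ C, lab y = (0, 0, -1))]
    · simp [dot, h]
    · rintro ⟨z, hz, hz'⟩
      rcases lab_cases z with ⟨g, g'⟩ | ⟨g, g'⟩ | ⟨g, g'⟩ | ⟨g, g'⟩ | ⟨g, g'⟩ | ⟨g, g'⟩ <;>
        rw [hz'] at g <;> simp at g
      have h1 := abs_sub_le_dist3 y z
      have h2 := hd y hy z hz
      have h3 := hC y hy
      have h4 := hC z hz
      linarith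
  · rw [if_pos (c := ∃ y ∈ C, lab y = (0, 0, -1)) ⟨y, hy, h⟩]
    simp [dot, h]

/-- grid coordinate -/
noncomputable def cc (N i : ℕ) : ℝ := -2 + 4 * (i : ℝ) / N

/-- grid point -/
noncomputable def gp (N i j k : ℕ) : ℝ × ℝ × ℝ := (cc N i, cc N j, cc N k)

theorem cc_zero (N : ℕ) : cc N 0 = -2 := by simp [cc]

theorem cc_N (N : ℕ) (hN : 2 ≤ N) : cc N N = 2 := by
  have : (N : ℝ) ≠ 0 := by positivity
  unfold cc; field_simp; norm_num

theorem cc_abs_le (N i : ℕ) (hN : 2 ≤ N) (hi : i ≤ N) : |cc N i| ≤ 2 := by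
  have hN' : (0 : ℝ) < N := by positivity
  have h1 : (i : ℝ) ≤ N := by exact_mod_cast hi
  have h2 : (0 : ℝ) ≤ i := by positivity
  unfold cc
  have h3 : 4 * (i : ℝ) / N ≤ 4 := by rw [div_le_iff₀ hN']; linarith
  have h4 : 0 ≤ 4 * (i : ℝ) / N := by positivity
  rw [abs_le]; constructor <;> linarith

theorem cc_abs_lt (N i : ℕ) (hN : 2 ≤ N) (hi : i < N) (hi0 : 0 < i) : |cc N i| < 2 := by
  have hN' : (0 : ℝ) < N := by positivity
  have h1 : (i : ℝ) < N := by exact_mod_cast hi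
  have h2 : (0 : ℝ) < i := by exact_mod_cast hi0
  unfold cc
  have h3 : 4 * (i : ℝ) / N < 4 := by rw [div_lt_iff₀ hN']; linarith
  have h4 : 0 < 4 * (i : ℝ) / N := by positivity
  rw [abs_lt]; constructor <;> linarith

theorem cc_succ (N i : ℕ) : cc N (i + 1) = cc N i + 4 / N := by
  unfold cc; push_cast; ring

theorem lab_gp (N i j k : ℕ) (hN : 2 ≤ N) (hi : i ≤ N) (hj : j ≤ N) (hk : k ≤ N)
    (h : i = 0 ∨ i = N ∨ j = 0 ∨ j = N ∨ k = 0 ∨ k = N) : lab (gp N i j k) = bl N i j k := by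
  have hN0 : N ≠ 0 := by omega
  have ai := cc_abs_le N i hN hi
  have aj := cc_abs_le N j hN hj
  have ak := cc_abs_le N k hN hk
  by_cases i0 : i = 0
  · subst i0
    unfold lab gp bl
    simp only [cc_zero] at *
    rw [if_pos, if_neg, if_pos trivial]
    · norm_num
    · norm_num; exact ⟨aj, ak⟩
  by_cases iN : i = N
  · subst iN
    unfold lab gp bl
    simp only [cc_N _ hN] at *
    rw [if_pos, if_pos, if_neg i0, if_pos trivial]
    · norm_num
    · norm_num; exact ⟨aj, ak⟩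
  have ai' := cc_abs_lt N i hN (by omega) (by omega)
  by_cases j0 : j = 0
  · subst j0
    unfold lab gp bl
    simp only [cc_zero] at *
    rw [if_neg, if_pos, if_neg, if_neg i0, if_neg iN, if_pos trivial]
    · norm_num
    · norm_num; exact ak
    · norm_num; intro h; linarith
  by_cases jN : j = N
  · subst jN
    unfold lab gp bl
    simp only [cc_N _ hN] at *
    rw [if_neg, if_pos, if_pos, if_neg i0, if_neg iN, if_neg j0, if_pos trivial]
    · norm_num
    · norm_num; exact ak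
    · norm_num; intro h; linarith
  have aj' := cc_abs_lt N j hN (by omega) (by omega)
  by_cases k0 : k = 0
  · subst k0
    unfold lab gp bl
    simp only [cc_zero] at *
    rw [if_neg, if_neg, if_neg, if_neg i0, if_neg iN, if_neg j0, if_neg jN, if_pos trivial]
    · norm_num
    · norm_num; exact aj'
    · norm_num; intro h; exact ai'
  have kN : k = N := by omega
  subst kN
  unfold lab gp bl
  simp only [cc_N _ hN] at *
  rw [if_neg, if_neg, if_pos, if_neg i0, if_neg iN, if_neg j0, if_neg jN, if_neg k0]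
  · norm_num
  · norm_num; exact aj'
  · norm_num; intro h; exact ai'

/-- **No retraction theorem** in dimension three: there is no continuous nowhere vanishing map
`ℝ³ → ℝ³` that is the identity far out. -/
theorem no_nonvanishing (F : ℝ × ℝ × ℝ → ℝ × ℝ × ℝ) (hF : Continuous F) (h0 : ∀ x, F x ≠ 0)
    (hid : ∀ x, 2 ≤ ‖x‖ → F x = x) : False := by
  have hK : IsCompact (Metric.closedBall (0 : ℝ × ℝ × ℝ) 2) := isCompact_closedBall _ _
  obtain ⟨x0, hx0, hmin⟩ := hK.exists_isMinOn ⟨0, by simp⟩ (hF.norm.continuousOn)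
  set ε := ‖F x0‖ with hεdef
  have hε : 0 < ε := norm_pos_iff.mpr (h0 x0)
  have huc := hK.uniformContinuousOn_of_continuous hF.continuousOn
  rw [Metric.uniformContinuousOn_iff] at huc
  obtain ⟨δ, hδ, hδ'⟩ := huc ε hε
  obtain ⟨N, hN⟩ := exists_nat_gt (max 2 (4 / δ))
  have hN2' : (2 : ℝ) < N := (le_max_left _ _).trans_lt hN
  have hN2 : 2 ≤ N := by exact_mod_cast hN2'.le
  have hNpos : (0 : ℝ) < N := by linarith
  have hNδ : 4 / (N : ℝ) < δ := by
    have := (le_max_right _ _).trans_lt hN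
    rw [div_lt_iff₀ hδ] at this
    rw [div_lt_iff₀ hNpos]; linarith
  have h4N : 0 < 4 / (N : ℝ) := by positivity
  have hmem : ∀ i j k, i ≤ N → j ≤ N → k ≤ N → gp N i j k ∈ Metric.closedBall (0 : ℝ × ℝ × ℝ) 2 := by
    intro i j k hi hj hk
    rw [mem_closedBall_zero_iff, norm3]
    exact max_le (cc_abs_le N i hN2 hi) (max_le (cc_abs_le N j hN2 hj) (cc_abs_le N k hN2 hk))
  have hsum := sum_cubeB_eq_eight N hN2 (fun i j k => lab (F (gp N i j k))) (by
    intro i j k hi hj hk h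
    have h2 : 2 ≤ ‖gp N i j k‖ := by
      rw [norm3]
      unfold gp
      simp only
      rcases h with h | h | h | h | h | h <;> subst h
      · rw [cc_zero]; exact le_trans (by norm_num) (le_max_left _ _)
      · rw [cc_N _ hN2]; exact le_trans (by norm_num) (le_max_left _ _)
      · rw [cc_zero]; exact le_trans (by norm_num) ((le_max_left _ _).trans (le_max_right _ _))
      · rw [cc_N _ hN2]; exact le_trans (by norm_num) ((le_max_left _ _).trans (le_max_right _ _))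
      · rw [cc_zero]; exact le_trans (by norm_num) ((le_max_right _ _).trans (le_max_right _ _))
      · rw [cc_N _ hN2]; exact le_trans (by norm_num) ((le_max_right _ _).trans (le_max_right _ _))
    rw [hid _ h2]
    exact lab_gp N i j k hN2 hi hj hk h)
  have hzero : ∀ i ∈ Finset.range N, ∀ j ∈ Finset.range N, ∀ k ∈ Finset.range N,
      cubeB (lab (F (gp N i j k))) (lab (F (gp N (i+1) j k))) (lab (F (gp N i (j+1) k)))
        (lab (F (gp N (i+1) (j+1) k))) (lab (F (gp N i j (k+1)))) (lab (F (gp N (i+1) j (k+1))))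
        (lab (F (gp N i (j+1) (k+1)))) (lab (F (gp N (i+1) (j+1) (k+1)))) = 0 := by
    intro i hi j hj k hk
    rw [Finset.mem_range] at hi hj hk
    have hclose : ∀ a b c a' b' c' : ℕ, a ≤ 1 → b ≤ 1 → c ≤ 1 → a' ≤ 1 → b' ≤ 1 → c' ≤ 1 →
        dist (gp N (i+a) (j+b) (k+c)) (gp N (i+a') (j+b') (k+c')) < δ := by
      have h1 : ∀ n a a' : ℕ, a ≤ 1 → a' ≤ 1 → |cc N (n + a) - cc N (n + a')| < δ := by
        intro n a a' ha ha'
        interval_cases a <;> interval_cases a' <;> simp only [cc_succ, add_zero] <;>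
          rw [abs_lt] <;> constructor <;> linarith
      intro a b c a' b' c' ha hb hc ha' hb' hc'
      rw [dist_eq_norm, norm3]
      exact max_lt (h1 i a a' ha ha') (max_lt (h1 j b b' hb hb') (h1 k c c' hc hc'))
    obtain ⟨s, hs, hs'⟩ := exists_plane
      {y | ∃ a b c : ℕ, a ≤ 1 ∧ b ≤ 1 ∧ c ≤ 1 ∧ y = F (gp N (i+a) (j+b) (k+c))} ε hε (by
        rintro y ⟨a, b, c, ha, hb, hc, rfl⟩
        exact hmin (hmem _ _ _ (by omega) (by omega) (by omega))) (by
        rintro y ⟨a, b, c, ha, hb, hc, rfl⟩ z ⟨a', b', c', ha', hb', hc', rfl⟩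
        exact hδ' _ (hmem _ _ _ (by omega) (by omega) (by omega)) _
          (hmem _ _ _ (by omega) (by omega) (by omega))
          (hclose a b c a' b' c' ha hb hc ha' hb' hc'))
    apply cubeB_eq_zero s hs 1
    · exact hs' _ ⟨0, 0, 0, by omega, by omega, by omega, rfl⟩
    · exact hs' _ ⟨1, 0, 0, by omega, by omega, by omega, rfl⟩
    · exact hs' _ ⟨0, 1, 0, by omega, by omega, by omega, rfl⟩
    · exact hs' _ ⟨1, 1, 0, by omega, by omega, by omega, rfl⟩
    · exact hs' _ ⟨0, 0, 1, by omega, by omega, by omega, rfl⟩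
    · exact hs' _ ⟨1, 0, 1, by omega, by omega, by omega, rfl⟩
    · exact hs' _ ⟨0, 1, 1, by omega, by omega, by omega, rfl⟩
    · exact hs' _ ⟨1, 1, 1, by omega, by omega, by omega, rfl⟩
  rw [Finset.sum_congr rfl (fun i hi => Finset.sum_congr rfl (fun j hj =>
    Finset.sum_congr rfl (hzero i hi j hj)))] at hsum
  simp at hsum

end Pool.Agent.Lib.MP_6cd968_gt
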