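import Pool.Agent.Lib.MP_6cd968_gt.Ell
import Pool.Agent.Lib.MP_6cd968_gt.NR

set_option autoImplicit false

namespace Pool.Agent.Lib.MP_6cd968_gt

/-- Euclidean space to triples -/
def e3 (x : EuclideanSpace ℝ (Fin (2 + 1))) : ℝ × ℝ × ℝ := (x 0, x 1, x 2)

theorem continuous_e3 : Continuous e3 := by
  unfold e3
  fun_prop

/-- triples to Euclidean space -/
noncomputable def t3 (y : ℝ × ℝ × ℝ) : EuclideanSpace ℝ (Fin (2 + 1)) :=
  WithLp.toLp 2 ![y.1, y.2.1, y.2.2]

theorem e3_t3 (y : ℝ × ℝ × ℝ) : e3 (t3 y) = y := by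
  simp [e3, t3]

theorem continuous_t3 : Continuous t3 := by
  unfold t3
  apply (PiLp.continuous_toLp 2 _).comp
  apply continuous_pi
  intro i
  fin_cases i
  · exact continuous_fst
  · exact continuous_fst.comp continuous_snd
  · exact continuous_snd.comp continuous_snd

theorem e3_smul (c : ℝ) (x : EuclideanSpace ℝ (Fin (2 + 1))) : e3 (c • x) = c • e3 x := by
  simp [e3]

theorem norm_e3_le (x : EuclideanSpace ℝ (Fin (2 + 1))) : ‖e3 x‖ ≤ ‖x‖ := by
  rw [norm3]
  refine max_le ?_ (max_le ?_ ?_)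
  · exact PiLp.norm_apply_le x 0
  · exact PiLp.norm_apply_le x 1
  · exact PiLp.norm_apply_le x 2

theorem norm_le_t3 (y : ℝ × ℝ × ℝ) : ‖y‖ ≤ ‖t3 y‖ := by
  have := norm_e3_le (t3 y)
  rwa [e3_t3] at this

/-- No continuous nowhere zero map on the ball which on the sphere never points opposite to the
identity. -/
theorem no_ball_map (H : EuclideanSpace ℝ (Fin (2 + 1)) → ℝ × ℝ × ℝ)
    (hH : ContinuousOn H (Metric.closedBall (0 : EuclideanSpace ℝ (Fin (2 + 1))) 1))
    (h0 : ∀ x ∈ Metric.closedBall (0 : EuclideanSpace ℝ (Fin (2 + 1))) 1, H x ≠ 0)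
    (hb : ∀ x ∈ Metric.sphere (0 : EuclideanSpace ℝ (Fin (2 + 1))) 1, ∀ c : ℝ, 0 ≤ c →
      H x ≠ -c • e3 x) : False := by
  -- radial retraction
  let r : EuclideanSpace ℝ (Fin (2 + 1)) → EuclideanSpace ℝ (Fin (2 + 1)) :=
    fun x => (max 1 ‖x‖)⁻¹ • x
  have hr : Continuous r := by
    have h1 : Continuous (fun x : EuclideanSpace ℝ (Fin (2 + 1)) => (max 1 ‖x‖)⁻¹) := by
      apply Continuous.inv₀ (by fun_prop)
      intro x
      have : (1 : ℝ) ≤ max 1 ‖x‖ := le_max_left _ _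
      positivity
    exact h1.smul continuous_id
  have hrm : ∀ x, r x ∈ Metric.closedBall (0 : EuclideanSpace ℝ (Fin (2 + 1))) 1 := by
    intro x
    rw [mem_closedBall_zero_iff, norm_smul, norm_inv, Real.norm_eq_abs]
    have h1 : (1 : ℝ) ≤ max 1 ‖x‖ := le_max_left _ _
    rw [abs_of_pos (by linarith), inv_mul_le_iff₀ (by linarith), mul_one]
    exact le_max_right _ _
  let τ : ℝ × ℝ × ℝ → ℝ := fun y => max 0 (min 1 (‖t3 y‖ - 1))
  have hτ : Continuous τ := by
    have := continuous_t3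
    fun_prop
  have hF : Continuous (fun y => (1 - τ y) • H (r (t3 y)) + τ y • y) := by
    have h1 : Continuous (fun y => H (r (t3 y))) :=
      hH.comp_continuous (hr.comp continuous_t3) (fun y => hrm _)
    exact ((continuous_const.sub hτ).smul h1).add (hτ.smul continuous_id)
  refine no_nonvanishing _ hF ?_ ?_
  · intro y hy
    rcases le_or_gt ‖t3 y‖ 1 with h | h
    · have h1 : τ y = 0 := by
        show max 0 (min 1 (‖t3 y‖ - 1)) = 0
        apply max_eq_left
        exact (min_le_right _ _).trans (by linarith)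
      have h2 : r (t3 y) = t3 y := by
        show (max 1 ‖t3 y‖)⁻¹ • t3 y = t3 y
        rw [max_eq_left h, inv_one, one_smul]
      rw [h1, h2] at hy
      apply h0 (t3 y) (by rwa [mem_closedBall_zero_iff])
      simpa using hy
    · have hpos : 0 < ‖t3 y‖ := by linarith
      have h2 : r (t3 y) = ‖t3 y‖⁻¹ • t3 y := by
        show (max 1 ‖t3 y‖)⁻¹ • t3 y = _
        rw [max_eq_right h.le]
      have hs : r (t3 y) ∈ Metric.sphere (0 : EuclideanSpace ℝ (Fin (2 + 1))) 1 := by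
        rw [mem_sphere_zero_iff_norm, h2, norm_smul, norm_inv, norm_norm,
          inv_mul_cancel₀ hpos.ne']
      have hy2 : y = ‖t3 y‖ • e3 (r (t3 y)) := by
        rw [h2, e3_smul, smul_smul, mul_inv_cancel₀ hpos.ne', one_smul, e3_t3]
      have hτ0 : 0 ≤ τ y := le_max_left _ _
      have hτ1 : τ y ≤ 1 := max_le zero_le_one (min_le_left _ _)
      rcases eq_or_lt_of_le hτ1 with h1 | h1
      · rw [h1] at hy
        have h3 : y = 0 := by simpa using hy
        have h4 : 2 ≤ ‖t3 y‖ := by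
          have h5 : max 0 (min 1 (‖t3 y‖ - 1)) = 1 := h1
          by_contra hc
          push Not at hc
          have h6 : min 1 (‖t3 y‖ - 1) < 1 := (min_le_right _ _).trans_lt (by linarith)
          have h7 : max 0 (min 1 (‖t3 y‖ - 1)) < 1 := max_lt one_pos h6
          linarith
        have h8 : (0 : ℝ × ℝ × ℝ) = ‖t3 y‖ • e3 (r (t3 y)) := by rw [← hy2, h3]
        have h9 : t3 y = 0 := by
          rw [h3]
          simp [t3]
        rw [h9, norm_zero] at h4
        linarith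
      · apply hb _ hs (τ y * ‖t3 y‖ / (1 - τ y))
          (div_nonneg (mul_nonneg hτ0 hpos.le) (by linarith))
        have h3 : (1 - τ y) • H (r (t3 y)) = - (τ y • y) := by
          exact eq_neg_of_add_eq_zero_left hy
        have h4 : (1 - τ y) ≠ 0 := by linarith
        have h5 : H (r (t3 y)) = (1 - τ y)⁻¹ • (- (τ y • y)) := by
          rw [← h3, smul_smul, inv_mul_cancel₀ h4, one_smul]
        rw [h5]
        generalize e3 (r (t3 y)) = E at hy2 ⊢
        generalize ‖t3 y‖ = T at hy2 ⊢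
        generalize τ y = t at h4 ⊢
        rw [hy2, ← neg_smul, smul_smul, smul_smul]
        congr 1
        field_simp
  · intro y hy
    have h1 : τ y = 1 := by
      show max 0 (min 1 (‖t3 y‖ - 1)) = 1
      have := norm_le_t3 y
      rw [min_eq_left (by linarith)]
      exact max_eq_right zero_le_one
    rw [h1]
    simp

/-- A convex combination of points close to `q` is close to `q`. -/
theorem weighted {α : Type} (s : Finset α) (w : α → ℝ) (p : α → ℝ × ℝ × ℝ) (q : ℝ × ℝ × ℝ) (r : ℝ)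
    (h0 : ∀ a ∈ s, 0 ≤ w a) (h1 : ∑ a ∈ s, w a = 1) (h : ∀ a ∈ s, w a ≠ 0 → ‖p a - q‖ ≤ r) :
    ‖∑ a ∈ s, w a • p a - q‖ ≤ r := by
  have e : ∑ a ∈ s, w a • p a - q = ∑ a ∈ s, w a • (p a - q) := by
    simp only [smul_sub, Finset.sum_sub_distrib, ← Finset.sum_smul, h1, one_smul]
  rw [e]
  calc ‖∑ a ∈ s, w a • (p a - q)‖ ≤ ∑ a ∈ s, ‖w a • (p a - q)‖ := norm_sum_le _ _
    _ ≤ ∑ a ∈ s, w a * r := by
        apply Finset.sum_le_sum
        intro a ha
        rw [norm_smul, Real.norm_eq_abs, abs_of_nonneg (h0 a ha)]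
        by_cases hw : w a = 0
        · rw [hw]; simp
        · exact mul_le_mul_of_nonneg_left (h a ha hw) (h0 a ha)
    _ = r := by rw [← Finset.sum_mul, h1, one_mul]

theorem comp1_le (y : ℝ × ℝ × ℝ) (h : ‖y‖ ≤ 1) : |y.1| ≤ 1 := by
  rw [norm3] at h
  exact (le_max_left _ _).trans h

theorem comp2_le (y : ℝ × ℝ × ℝ) (h : ‖y‖ ≤ 1) : |y.2.1| ≤ 1 := by
  rw [norm3] at h
  exact ((le_max_left _ _).trans (le_max_right _ _)).trans h

theorem comp3_le (y : ℝ × ℝ × ℝ) (h : ‖y‖ ≤ 1) : |y.2.2| ≤ 1 := by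
  rw [norm3] at h
  exact ((le_max_right _ _).trans (le_max_right _ _)).trans h

/-- linear extension of a bounded map -/
noncomputable def LL {α : Type} (p : α → ℝ × ℝ × ℝ) (hp : ∀ a, ‖p a‖ ≤ 1)
    (f : lp (fun _ : α => ℝ) 1) : ℝ × ℝ × ℝ :=
  (pairL (fun a => (p a).1) (fun a => comp1_le _ (hp a)) f,
    pairL (fun a => (p a).2.1) (fun a => comp2_le _ (hp a)) f,
    pairL (fun a => (p a).2.2) (fun a => comp3_le _ (hp a)) f)

theorem continuous_LL {α : Type} (p : α → ℝ × ℝ × ℝ) (hp : ∀ a, ‖p a‖ ≤ 1) :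
    Continuous (LL p hp) := by
  unfold LL
  exact (ContinuousLinearMap.continuous _).prodMk
    ((ContinuousLinearMap.continuous _).prodMk (ContinuousLinearMap.continuous _))

theorem LL_eq_sum {α : Type} (p : α → ℝ × ℝ × ℝ) (hp : ∀ a, ‖p a‖ ≤ 1)
    (f : lp (fun _ : α => ℝ) 1) (s : Finset α) (hs : ∀ a, a ∉ s → f a = 0) :
    LL p hp f = ∑ a ∈ s, f a • p a := by
  unfold LL
  rw [pairL_eq_sum _ _ f s hs, pairL_eq_sum _ _ f s hs, pairL_eq_sum _ _ f s hs]
  ext
  · simp [Prod.fst_sum]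
  · simp [Prod.fst_sum, Prod.snd_sum]
  · simp [Prod.snd_sum]

/-- the norm whose unit sphere is the square bipyramid -/
noncomputable def nu (y : ℝ × ℝ × ℝ) : ℝ := |y.2.2| + max |y.1| |y.2.1|

theorem continuous_nu : Continuous nu := by unfold nu; fun_prop

theorem nu_smul (c : ℝ) (hc : 0 ≤ c) (y : ℝ × ℝ × ℝ) : nu (c • y) = c * nu y := by
  simp only [nu, Prod.smul_fst, Prod.smul_snd, smul_eq_mul, abs_mul, abs_of_nonneg hc]
  rw [mul_add, mul_max_of_nonneg _ _ hc]

theorem nu_le (y : ℝ × ℝ × ℝ) : nu y ≤ 2 * ‖y‖ := by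
  rw [norm3]
  unfold nu
  have h1 : |y.2.2| ≤ max |y.1| (max |y.2.1| |y.2.2|) :=
    (le_max_right _ _).trans (le_max_right _ _)
  have h2 : max |y.1| |y.2.1| ≤ max |y.1| (max |y.2.1| |y.2.2|) :=
    max_le_max le_rfl (le_max_left _ _)
  linarith

theorem nu_pos (y : ℝ × ℝ × ℝ) (hy : y ≠ 0) : 0 < nu y := by
  unfold nu
  have h1 := abs_nonneg y.2.2
  have h2 : 0 ≤ max |y.1| |y.2.1| := (abs_nonneg _).trans (le_max_left _ _)
  by_contra hc
  apply hy
  have h3 : |y.2.2| = 0 := by linarith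
  have h4 : max |y.1| |y.2.1| = 0 := by linarith
  have h5 : |y.1| = 0 := le_antisymm (h4 ▸ le_max_left _ _) (abs_nonneg _)
  have h6 : |y.2.1| = 0 := le_antisymm (h4 ▸ le_max_right _ _) (abs_nonneg _)
  ext
  · exact abs_eq_zero.mp h5
  · exact abs_eq_zero.mp h6
  · exact abs_eq_zero.mp h3

/-- The topological obstruction in abstract form. -/
theorem obstruction {α : Type} (d : α → α → ℕ) (R : ℝ)
    (n : ℕ) (hn : 3 ≤ n) (p : α → ℝ × ℝ × ℝ) (A : Finset α)
    (hp1 : ∀ a, ‖p a‖ ≤ 1) (hp2 : ∀ a, 1 / 2 ≤ ‖p a‖)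
    (hd : ∀ a b, ‖p a - p b‖ ≤ (d a b : ℝ) / n)
    (hcov : ∀ q, nu q = 1 → ∃ a ∈ A, ‖q - p a‖ < 1 / n)
    (hclose : ∀ a ∈ A, ∀ b ∈ A, ‖p a - p b‖ < 2 / n → (d a b : ℝ) ≤ R)
    (R' : ℝ) (hR' : R' / n < 1 / 2) :
    ∃ γ : EuclideanSpace ℝ (Fin (2 + 1)) → lp (fun _ : α => ℝ) 1,
      ContinuousOn γ (Metric.sphere (0 : EuclideanSpace ℝ (Fin (2 + 1))) 1) ∧
      Set.MapsTo γ (Metric.sphere (0 : EuclideanSpace ℝ (Fin (2 + 1))) 1)
        {f : lp (fun _ : α => ℝ) 1 | (∀ a, 0 ≤ f a) ∧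
          ∃ s : Finset α, (∀ a, a ∉ s → f a = 0) ∧ ∑ a ∈ s, f a = 1 ∧
            ∀ a ∈ s, ∀ b ∈ s, (d a b : ℝ) ≤ R} ∧
      ∀ Γ : EuclideanSpace ℝ (Fin (2 + 1)) → lp (fun _ : α => ℝ) 1,
        ContinuousOn Γ (Metric.closedBall (0 : EuclideanSpace ℝ (Fin (2 + 1))) 1) →
        Set.MapsTo Γ (Metric.closedBall (0 : EuclideanSpace ℝ (Fin (2 + 1))) 1)
          {f : lp (fun _ : α => ℝ) 1 | (∀ a, 0 ≤ f a) ∧
            ∃ s : Finset α, (∀ a, a ∉ s → f a = 0) ∧ ∑ a ∈ s, f a = 1 ∧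
              ∀ a ∈ s, ∀ b ∈ s, (d a b : ℝ) ≤ R'} →
        ¬ Set.EqOn Γ γ (Metric.sphere (0 : EuclideanSpace ℝ (Fin (2 + 1))) 1) := by
  classical
  have hn0 : (0 : ℝ) < n := by positivity
  -- weights
  let w : ℝ × ℝ × ℝ → α → ℝ := fun q a => max 0 (1 - n * ‖q - p a‖)
  have hw0 : ∀ q a, 0 ≤ w q a := fun q a => le_max_left _ _
  have hwc : ∀ a, Continuous (fun q => w q a) := by
    intro a
    show Continuous (fun q => max 0 (1 - n * ‖q - p a‖))
    fun_prop
  have hwne : ∀ q a, w q a ≠ 0 → ‖q - p a‖ < 1 / n := by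
    intro q a h
    by_contra hc
    push Not at hc
    apply h
    show max 0 (1 - n * ‖q - p a‖) = 0
    apply max_eq_left
    rw [div_le_iff₀ hn0] at hc
    linarith
  have hwpos : ∀ q a, ‖q - p a‖ < 1 / n → 0 < w q a := by
    intro q a h
    rw [lt_div_iff₀ hn0] at h
    apply lt_max_of_lt_right
    linarith
  let W : ℝ × ℝ × ℝ → ℝ := fun q => ∑ a ∈ A, w q a
  have hWc : Continuous W := continuous_finsetSum _ (fun a _ => hwc a)
  have hWpos : ∀ q, nu q = 1 → 0 < W q := by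
    intro q hq
    obtain ⟨a, ha, h⟩ := hcov q hq
    exact Finset.sum_pos' (fun a _ => hw0 q a) ⟨a, ha, hwpos q a h⟩
  -- the map to the bipyramid
  let ρ : EuclideanSpace ℝ (Fin (2 + 1)) → ℝ × ℝ × ℝ := fun x => (nu (e3 x))⁻¹ • e3 x
  have he3 : ∀ x ∈ Metric.sphere (0 : EuclideanSpace ℝ (Fin (2 + 1))) 1, 0 < nu (e3 x) := by
    intro x hx
    apply nu_pos
    intro h
    have h0 : x = 0 := by
      have h1 : x 0 = 0 := congrArg Prod.fst h
      have h2 : x 1 = 0 := congrArg (fun z : ℝ × ℝ × ℝ => z.2.1) h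
      have h3 : x 2 = 0 := congrArg (fun z : ℝ × ℝ × ℝ => z.2.2) h
      ext i
      fin_cases i
      · exact h1
      · exact h2
      · exact h3
    rw [h0, mem_sphere_zero_iff_norm, norm_zero] at hx
    exact zero_ne_one hx
  have hρc : ContinuousOn ρ (Metric.sphere (0 : EuclideanSpace ℝ (Fin (2 + 1))) 1) := by
    have h1 : ContinuousOn (fun x => (nu (e3 x))⁻¹)
        (Metric.sphere (0 : EuclideanSpace ℝ (Fin (2 + 1))) 1) :=
      ContinuousOn.inv₀ (continuous_nu.comp continuous_e3).continuousOn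
        (fun x hx => (he3 x hx).ne')
    exact h1.smul continuous_e3.continuousOn
  have hρ1 : ∀ x ∈ Metric.sphere (0 : EuclideanSpace ℝ (Fin (2 + 1))) 1, nu (ρ x) = 1 := by
    intro x hx
    show nu ((nu (e3 x))⁻¹ • e3 x) = 1
    rw [nu_smul _ (inv_nonneg.mpr (he3 x hx).le), inv_mul_cancel₀ (he3 x hx).ne']
  -- the sphere
  refine ⟨fun x => comb A (fun a => w (ρ x) a / W (ρ x)), ?_, ?_, ?_⟩
  · apply continuousOn_comb A (fun x a => w (ρ x) a / W (ρ x))
    intro a _
    apply ContinuousOn.div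
    · exact (hwc a).comp_continuousOn hρc
    · exact hWc.comp_continuousOn hρc
    · intro x hx
      exact (hWpos _ (hρ1 x hx)).ne'
  · intro x hx
    have hW := hWpos _ (hρ1 x hx)
    refine ⟨?_, A.filter (fun a => w (ρ x) a ≠ 0), ?_, ?_, ?_⟩
    · intro a
      rw [comb_apply]
      split_ifs
      · exact div_nonneg (hw0 _ _) hW.le
      · exact le_rfl
    · intro a ha
      rw [comb_apply]
      rw [Finset.mem_filter, not_and, not_not] at ha
      split_ifs with h
      · rw [ha h, zero_div]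
      · rfl
    · rw [Finset.sum_filter]
      have : ∀ a ∈ A, (if w (ρ x) a ≠ 0 then
          (comb A (fun a => w (ρ x) a / W (ρ x)) : lp (fun _ : α => ℝ) 1) a else 0)
          = w (ρ x) a / W (ρ x) := by
        intro a ha
        rw [comb_apply, if_pos ha]
        split_ifs with h
        · rfl
        · rw [not_not] at h; rw [h, zero_div]
      rw [Finset.sum_congr rfl this, ← Finset.sum_div]
      exact div_self hW.ne'
    · intro a ha b hb
      rw [Finset.mem_filter] at ha hb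
      apply hclose a ha.1 b hb.1
      have h1 := hwne _ _ ha.2
      have h2 := hwne _ _ hb.2
      have h3 : p a - p b = (ρ x - p b) - (ρ x - p a) := by abel
      rw [h3]
      calc ‖(ρ x - p b) - (ρ x - p a)‖ ≤ ‖ρ x - p b‖ + ‖ρ x - p a‖ := norm_sub_le _ _
        _ < 1 / n + 1 / n := add_lt_add h2 h1
        _ = 2 / n := by ring
  · intro Γ hΓc hΓm hΓe
    refine no_ball_map (fun x => LL p hp1 (Γ x)) ((continuous_LL p hp1).comp_continuousOn hΓc) ?_ ?_
    · intro x hx h0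
      obtain ⟨f0, s, f1, f2, f3⟩ := hΓm hx
      obtain ⟨a0, ha0⟩ : s.Nonempty := by
        rw [Finset.nonempty_iff_ne_empty]
        rintro rfl
        rw [Finset.sum_empty] at f2
        exact zero_ne_one f2
      have h1 := weighted s (Γ x) p (p a0) (R' / n) (fun a _ => f0 a) f2 (by
        intro a ha _
        refine (hd a a0).trans ?_
        exact div_le_div_of_nonneg_right (f3 a ha a0 ha0) hn0.le)
      have h2 : LL p hp1 (Γ x) = 0 := h0
      rw [LL_eq_sum p hp1 _ s f1] at h2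
      rw [h2, zero_sub, norm_neg] at h1
      have := hp2 a0
      linarith
    · intro x hx c hc hxc
      have hW := hWpos _ (hρ1 x hx)
      have h1 : LL p hp1 (Γ x) = ∑ a ∈ A, (w (ρ x) a / W (ρ x)) • p a := by
        rw [hΓe hx, LL_eq_sum p hp1 _ A]
        · apply Finset.sum_congr rfl
          intro a ha
          rw [comb_apply, if_pos ha]
        · intro a ha
          rw [comb_apply, if_neg ha]
      have h2 := weighted A (fun a => w (ρ x) a / W (ρ x)) p (ρ x) (1 / n)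
        (fun a _ => div_nonneg (hw0 _ _) hW.le)
        (by rw [← Finset.sum_div]; exact div_self hW.ne') (by
          intro a _ h
          have h3 : w (ρ x) a ≠ 0 := by
            intro h4; apply h; simp only [h4, zero_div]
          have := hwne _ _ h3
          rw [norm_sub_rev]
          exact this.le)
      rw [← h1] at h2
      have h3 : LL p hp1 (Γ x) = -c • e3 x := hxc
      have hν := he3 x hx
      have h4 : -c • e3 x = -(c * nu (e3 x)) • ρ x := by
        show -c • e3 x = -(c * nu (e3 x)) • ((nu (e3 x))⁻¹ • e3 x)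
        rw [smul_smul]
        congr 1
        field_simp
      rw [h3, h4] at h2
      have h5 : -(c * nu (e3 x)) • ρ x - ρ x = -((c * nu (e3 x) + 1) • ρ x) := by
        rw [add_smul, one_smul, neg_smul]; abel
      rw [h5, norm_neg, norm_smul, Real.norm_eq_abs, abs_of_nonneg (by positivity)] at h2
      have h6 : 1 ≤ 2 * ‖ρ x‖ := by
        rw [← hρ1 x hx]; exact nu_le _
      have h7 : ‖ρ x‖ ≤ (c * nu (e3 x) + 1) * ‖ρ x‖ := by
        have : 0 ≤ c * nu (e3 x) := by positivity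
        nlinarith [norm_nonneg (ρ x)]
      have h8 : (1 : ℝ) / n ≤ 1 / 3 := by
        apply one_div_le_one_div_of_le (by norm_num)
        exact_mod_cast hn
      linarith

end Pool.Agent.Lib.MP_6cd968_gt
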