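import Pool.Agent.Lib.MP_6cd968_gt.Act
import Pool.Agent.Lib.MP_6cd968_gt.Obs

set_option autoImplicit false

namespace Pool.Agent.Lib.MP_6cd968_gt

/-- the ambient 1-skeleton -/
abbrev XG : SimpleGraph VV := SimpleGraph.fromRel (fun u v : VV => ∃ s ∈ SS, u ∈ s ∧ v ∈ s)

/-- interior of one of the big squares -/
def Inside (i j : ℤ) : Prop := ∃ n : ℕ, |i - (n : ℤ) ^ 2| < n ∧ |j| < n

/-- adjacency in the subgraph -/
def Yadj (u v : VV) : Prop :=
  (u.1 = v.1 ∧ (v.2.1 = u.2.1 + 1 ∨ u.2.1 = v.2.1 + 1) ∧ u.2.2 ≠ v.2.2) ∨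
  ((v.1 = u.1 + 1 ∨ u.1 = v.1 + 1) ∧ u.2.1 = v.2.1 ∧ u.2.2 = false ∧ v.2.2 = false) ∨
  (u.1 = v.1 ∧ u.2.1 = v.2.1 ∧ u.2.2 ≠ v.2.2 ∧ ¬ Inside u.1 u.2.1)

theorem Yadj_symm (u v : VV) (h : Yadj u v) : Yadj v u := by
  rcases h with ⟨h1, h2, h3⟩ | ⟨h1, h2, h3, h4⟩ | ⟨h1, h2, h3, h4⟩
  · exact Or.inl ⟨h1.symm, h2.symm, h3.symm⟩
  · exact Or.inr (Or.inl ⟨h1.symm, h2.symm, h4, h3⟩)
  · exact Or.inr (Or.inr ⟨h1.symm, h2.symm, h3.symm, by rw [← h1, ← h2]; exact h4⟩)

theorem Yadj_sub (u v : VV) (h : Yadj u v) : XG.Adj u v := by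
  rw [SimpleGraph.fromRel_adj]
  obtain ⟨i, j, k⟩ := u
  obtain ⟨i', j', k'⟩ := v
  rcases h with ⟨h1, h2, h3⟩ | ⟨h1, h2, h3, h4⟩ | ⟨h1, h2, h3, h4⟩
  · simp only at h1 h2 h3
    subst h1
    refine ⟨fun h => h3 (by injection h with _ h; injection h), ?_⟩
    left
    rcases h2 with h2 | h2
    · subst h2
      cases k <;> cases k'
      · exact absurd rfl h3
      · exact ⟨tri i (j + 1) 3, tri_mem_SS _ _ _, by simp [tri], by simp [tri]⟩
      · exact ⟨tri i j 2, tri_mem_SS _ _ _, by simp [tri], by simp [tri]⟩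
      · exact absurd rfl h3
    · subst h2
      cases k <;> cases k'
      · exact absurd rfl h3
      · exact ⟨tri i j' 2, tri_mem_SS _ _ _, by simp [tri], by simp [tri]⟩
      · exact ⟨tri i (j' + 1) 3, tri_mem_SS _ _ _, by simp [tri], by simp [tri]⟩
      · exact absurd rfl h3
  · simp only at h1 h2 h3 h4
    subst h2 h3 h4
    refine ⟨fun h => ?_, ?_⟩
    · injection h with h; omega
    left
    rcases h1 with h1 | h1
    · subst h1
      exact ⟨tri i j 0, tri_mem_SS _ _ _, by simp [tri], by simp [tri]⟩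
    · subst h1
      exact ⟨tri i' j 0, tri_mem_SS _ _ _, by simp [tri], by simp [tri]⟩
  · simp only at h1 h2 h3
    subst h1 h2
    refine ⟨fun h => h3 (by injection h with _ h; injection h), ?_⟩
    left
    refine ⟨tri i j 2, tri_mem_SS _ _ _, ?_, ?_⟩
    · cases k <;> simp [tri]
    · cases k' <;> simp [tri]

/-- the subgraph -/
def YY : XG.Subgraph where
  verts := Set.univ
  Adj := Yadj
  adj_sub := fun {u v} h => Yadj_sub u v h
  edge_vert := fun _ => Set.mem_univ _
  symm := ⟨fun u v h => Yadj_symm u v h⟩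

/-- vertices of the subgraph -/
def up (v : VV) : YY.verts := ⟨v, Set.mem_univ v⟩

theorem up_surj (a : YY.verts) : ∃ v, up v = a := ⟨a.1, rfl⟩

theorem up_inj : Function.Injective up := fun _ _ h => congrArg Subtype.val h

theorem coe_adj (u v : VV) : YY.coe.Adj (up u) (up v) ↔ Yadj u v := Iff.rfl

theorem reach_origin (v : VV) : YY.coe.Reachable (up v) (up (0, 0, false)) := by
  have hcross : YY.coe.Reachable (up (0, 0, true)) (up (0, 0, false)) := by
    apply SimpleGraph.Adj.reachable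
    rw [coe_adj]
    refine Or.inr (Or.inr ⟨rfl, rfl, by simp, ?_⟩)
    rintro ⟨n, h1, h2⟩
    simp only [zero_sub, abs_neg, abs_pow, Nat.abs_cast, abs_zero] at h1 h2
    nlinarith
  have hvert : ∀ j : ℤ, ∀ k : Bool, YY.coe.Reachable (up (0, j, k)) (up (0, 0, false)) := by
    intro j
    induction j using Int.induction_on with
    | zero =>
      intro k
      cases k
      · exact SimpleGraph.Reachable.refl _
      · exact hcross
    | succ i ih =>
      intro k
      refine SimpleGraph.Reachable.trans ?_ (ih (!k))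
      apply SimpleGraph.Adj.reachable
      rw [coe_adj]
      exact Or.inl ⟨rfl, Or.inr rfl, by simp⟩
    | pred i ih =>
      intro k
      refine SimpleGraph.Reachable.trans ?_ (ih (!k))
      apply SimpleGraph.Adj.reachable
      rw [coe_adj]
      refine Or.inl ⟨rfl, Or.inl ?_, by simp⟩
      simp
  have hhor : ∀ i j : ℤ, YY.coe.Reachable (up (i, j, false)) (up (0, j, false)) := by
    intro i j
    induction i using Int.induction_on with
    | zero => exact SimpleGraph.Reachable.refl _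
    | succ i ih =>
      refine SimpleGraph.Reachable.trans ?_ ih
      apply SimpleGraph.Adj.reachable
      rw [coe_adj]
      exact Or.inr (Or.inl ⟨Or.inr rfl, rfl, rfl, rfl⟩)
    | pred i ih =>
      refine SimpleGraph.Reachable.trans ?_ ih
      apply SimpleGraph.Adj.reachable
      rw [coe_adj]
      refine Or.inr (Or.inl ⟨Or.inl ?_, rfl, rfl, rfl⟩)
      simp
  obtain ⟨i, j, k⟩ := v
  cases k
  · exact (hhor i j).trans (hvert j false)
  · have h1 : YY.coe.Reachable (up (i, j, true)) (up (i, j + 1, false)) := by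
      apply SimpleGraph.Adj.reachable
      rw [coe_adj]
      exact Or.inl ⟨rfl, Or.inl rfl, by simp⟩
    exact h1.trans ((hhor i (j + 1)).trans (hvert (j + 1) false))

theorem YY_coe_connected : YY.coe.Connected := by
  have : Nonempty YY.verts := ⟨up (0, 0, false)⟩
  refine SimpleGraph.Connected.mk ?_
  intro a b
  obtain ⟨u, rfl⟩ := up_surj a
  obtain ⟨v, rfl⟩ := up_surj b
  exact (reach_origin u).trans (reach_origin v).symm

theorem YY_connected : YY.Connected := ⟨YY_coe_connected⟩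

end Pool.Agent.Lib.MP_6cd968_gt
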