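import Pool.Agent.Lib.MP_6cd968_gt.Geo

set_option autoImplicit false

namespace Pool.Agent.Lib.MP_6cd968_gt

/-! ### Upper bounds for distances -/

/-- graph distance -/
noncomputable def dd (u v : VV) : ℕ := YY.coe.dist (up u) (up v)

theorem dd_tri (u v w : VV) : dd u w ≤ dd u v + dd v w :=
  YY_coe_connected.dist_triangle

theorem dd_comm (u v : VV) : dd u v = dd v u := SimpleGraph.dist_comm

theorem dd_self (u : VV) : dd u u = 0 := SimpleGraph.dist_self

theorem dd_adj (u v : VV) (h : Yadj u v) : dd u v ≤ 1 := by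
  have h1 : YY.coe.Adj (up u) (up v) := (coe_adj u v).mpr h
  exact (SimpleGraph.dist_eq_one_iff_adj.mpr h1).le

/-- sheet parity -/
def ev (k : Bool) : ℤ := if k then 1 else 0

/-- sheet of a vertex -/
def sh (v : VV) : ℤ := (v.2.1 + ev v.2.2) % 2

theorem dd_vert (i j : ℤ) (k : Bool) : dd (i, j, k) (i, j + 1, !k) ≤ 1 :=
  dd_adj _ _ (Or.inl ⟨rfl, Or.inl rfl, by simp⟩)

theorem dd_hor (i j : ℤ) : dd (i, j, false) (i + 1, j, false) ≤ 1 :=
  dd_adj _ _ (Or.inr (Or.inl ⟨Or.inl rfl, rfl, rfl, rfl⟩))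

theorem dd_hor' (i j : ℤ) (k : Bool) : dd (i, j, k) (i + 1, j, k) ≤ 3 := by
  cases k
  · exact (dd_hor i j).trans (by norm_num)
  · have h1 := dd_vert i j true
    have h2 := dd_hor i (j + 1)
    have h3 := dd_vert (i + 1) j true
    have h4 := dd_tri (i, j, true) (i, j + 1, false) (i + 1, j, true)
    have h5 := dd_tri (i, j + 1, false) (i + 1, j + 1, false) (i + 1, j, true)
    rw [dd_comm (i + 1, j + 1, false)] at h5
    simp only [Bool.not_true] at h1 h3
    omega

theorem dd_diag (i j : ℤ) (k : Bool) : dd (i, j, k) (i + 1, j + 1, !k) ≤ 2 := by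
  cases k
  · have h1 := dd_hor i j
    have h2 := dd_vert (i + 1) j false
    have h3 := dd_tri (i, j, false) (i + 1, j, false) (i + 1, j + 1, !false)
    omega
  · have h1 := dd_vert i j true
    have h2 := dd_hor i (j + 1)
    have h3 := dd_tri (i, j, true) (i, j + 1, !true) (i + 1, j + 1, !true)
    simp only [Bool.not_true] at h1 h3 ⊢
    omega

theorem dd_adiag (i j : ℤ) (k : Bool) : dd (i, j + 1, k) (i + 1, j, !k) ≤ 2 := by
  cases k
  · have h1 := dd_hor i (j + 1)
    have h2 := dd_vert (i + 1) j true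
    have h3 := dd_tri (i, j + 1, false) (i + 1, j + 1, false) (i + 1, j, !false)
    rw [dd_comm (i + 1, j + 1, false)] at h3
    simp only [Bool.not_true, Bool.not_false] at h1 h2 h3 ⊢
    omega
  · have h1 := dd_vert i j false
    have h2 := dd_hor i j
    have h3 := dd_tri (i, j + 1, true) (i, j, false) (i + 1, j, !true)
    rw [dd_comm (i, j + 1, true) (i, j, false)] at h3
    simp only [Bool.not_true, Bool.not_false] at h1 h2 h3 ⊢
    omega

/-- nearby vertices in the same sheet are at distance at most three -/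
theorem dd_same (u v : VV) (h1 : |u.1 - v.1| ≤ 1) (h2 : |u.2.1 - v.2.1| ≤ 1) (h3 : sh u = sh v) :
    dd u v ≤ 3 := by
  obtain ⟨i, j, k⟩ := u
  obtain ⟨i', j', k'⟩ := v
  rw [abs_le] at h1 h2
  simp only at h1 h2
  simp only [sh, ev] at h3
  have hk : (j = j' ∧ k = k') ∨ (j' = j + 1 ∧ k' = !k) ∨ (j = j' + 1 ∧ k = !k') := by
    rcases (by omega : j = j' ∨ j' = j + 1 ∨ j = j' + 1) with h | h | h
    · left
      subst h
      refine ⟨rfl, ?_⟩
      cases k <;> cases k' <;> simp at h3 ⊢ <;> omega
    · right; left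
      subst h
      refine ⟨rfl, ?_⟩
      cases k <;> cases k' <;> simp at h3 ⊢ <;> omega
    · right; right
      subst h
      refine ⟨rfl, ?_⟩
      cases k <;> cases k' <;> simp at h3 ⊢ <;> omega
  rcases (by omega : i = i' ∨ i' = i + 1 ∨ i = i' + 1) with h | h | h
  · subst h
    rcases hk with ⟨rfl, rfl⟩ | ⟨rfl, rfl⟩ | ⟨rfl, rfl⟩
    · rw [dd_self]; norm_num
    · exact (dd_vert i j k).trans (by norm_num)
    · rw [dd_comm]; exact (dd_vert i j' k').trans (by norm_num)
  · subst h
    rcases hk with ⟨rfl, rfl⟩ | ⟨rfl, rfl⟩ | ⟨rfl, rfl⟩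
    · exact dd_hor' i j k
    · exact (dd_diag i j k).trans (by norm_num)
    · have := dd_adiag i j' (!k')
      rw [Bool.not_not] at this
      exact this.trans (by norm_num)
  · subst h
    rcases hk with ⟨rfl, rfl⟩ | ⟨rfl, rfl⟩ | ⟨rfl, rfl⟩
    · rw [dd_comm]; exact dd_hor' i' j k
    · rw [dd_comm]
      have := dd_adiag i' j (!k)
      rw [Bool.not_not] at this
      exact this.trans (by norm_num)
    · rw [dd_comm]
      exact (dd_diag i' j' k').trans (by norm_num)

theorem dd_cross (i j : ℤ) (k : Bool) (h : ¬ Inside i j) : dd (i, j, k) (i, j, !k) ≤ 1 :=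
  dd_adj _ _ (Or.inr (Or.inr ⟨rfl, rfl, by simp, h⟩))

theorem sh_not (i j : ℤ) (k : Bool) : sh (i, j, !k) = 1 - sh (i, j, k) := by
  simp only [sh, ev]
  cases k <;> simp <;> omega

theorem sh_cases (v : VV) : sh v = 0 ∨ sh v = 1 := by
  unfold sh; omega

/-- nearby vertices, one of which lies on a seam, are at distance at most four -/
theorem dd_seam (u v : VV) (h1 : |u.1 - v.1| ≤ 1) (h2 : |u.2.1 - v.2.1| ≤ 1)
    (h3 : ¬ Inside u.1 u.2.1) : dd u v ≤ 4 := by
  by_cases h : sh u = sh v
  · exact (dd_same u v h1 h2 h).trans (by norm_num)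
  · obtain ⟨i, j, k⟩ := u
    have h4 := dd_cross i j k h3
    have h5 := dd_same (i, j, !k) v h1 h2 (by
      rw [sh_not]
      rcases sh_cases (i, j, k) with h6 | h6 <;> rcases sh_cases v with h7 | h7 <;> omega)
    have h6 := dd_tri (i, j, k) (i, j, !k) v
    omega

/-- seams of the big squares are not in the interior of other squares -/
theorem not_inside_seam (n : ℕ) (i j : ℤ) (h1 : |i - (n : ℤ) ^ 2| ≤ n)
    (h3 : |i - (n : ℤ) ^ 2| = n ∨ |j| = n) : ¬ Inside i j := by
  rintro ⟨m, h4, h5⟩
  rw [abs_lt] at h4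
  have hm : (0 : ℤ) ≤ m := by positivity
  have hn : (0 : ℤ) ≤ n := by positivity
  rcases h3 with h3 | h3
  · rcases abs_eq hn |>.mp h3 with h6 | h6
    · have h7 : i = (n : ℤ) ^ 2 + n := by linarith
      subst h7
      rcases lt_trichotomy (m : ℤ) n with h | h | h
      · nlinarith
      · rw [h] at h4; nlinarith
      · nlinarith
    · have h7 : i = (n : ℤ) ^ 2 - n := by linarith
      subst h7
      rcases lt_trichotomy (m : ℤ) n with h | h | h
      · nlinarith
      · nlinarith
      · nlinarith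
  · rw [h3] at h5
    rw [abs_le] at h1
    nlinarith

/-! ### The maps to the bipyramid -/

/-- clamp -/
noncomputable def cl (x : ℝ) : ℝ := max (-1) (min 1 x)

/-- height -/
noncomputable def ht (x y : ℝ) : ℝ := max 0 (1 - max |x| |y|)

theorem abs_cl_le (x : ℝ) : |cl x| ≤ 1 := by
  unfold cl
  rw [abs_le]
  exact ⟨le_max_left _ _, max_le (by norm_num) (min_le_left _ _)⟩

theorem cl_of_le (x : ℝ) (h : |x| ≤ 1) : cl x = x := by
  rw [abs_le] at h
  unfold cl
  rw [min_eq_right h.2, max_eq_right h.1]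

theorem cl_lip (x y : ℝ) : |cl x - cl y| ≤ |x - y| := by
  unfold cl
  have h1 := abs_max_sub_max_le_max (-1) (min 1 x) (-1) (min 1 y)
  have h2 := abs_min_sub_min_le_max 1 x 1 y
  have h0 := abs_nonneg (x - y)
  simp only [sub_self, abs_zero] at h1 h2
  rw [max_eq_right h0] at h2
  rw [max_eq_right (abs_nonneg (min 1 x - min 1 y))] at h1
  exact h1.trans h2

theorem le_abs_cl (x : ℝ) (h : 1 / 2 ≤ |x|) : 1 / 2 ≤ |cl x| := by
  rcases le_or_gt |x| 1 with h1 | h1
  · rw [cl_of_le x h1]; exact h
  · rcases lt_abs.mp h1 with h2 | h2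
    · have : cl x = 1 := by
        unfold cl
        rw [min_eq_left h2.le]; exact max_eq_right (by norm_num)
      rw [this]; norm_num
    · have : cl x = -1 := by
        unfold cl
        rw [min_eq_right (by linarith)]; exact max_eq_left (by linarith)
      rw [this]; norm_num

theorem ht_nonneg (x y : ℝ) : 0 ≤ ht x y := le_max_left _ _

theorem ht_le_one (x y : ℝ) : ht x y ≤ 1 := by
  unfold ht
  apply max_le (by norm_num)
  have : 0 ≤ max |x| |y| := (abs_nonneg x).trans (le_max_left _ _)
  linarith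

theorem ht_lip (x y x' y' : ℝ) : |ht x y - ht x' y'| ≤ max |x - x'| |y - y'| := by
  unfold ht
  have h1 := abs_max_sub_max_le_max 0 (1 - max |x| |y|) 0 (1 - max |x'| |y'|)
  have h2 := abs_max_sub_max_le_max |x| |y| |x'| |y'|
  simp only [sub_self, abs_zero] at h1
  have h3 : abs (1 - max |x| |y| - (1 - max |x'| |y'|)) = abs (max |x| |y| - max |x'| |y'|) := by
    rw [← abs_neg]; congr 1; ring
  rw [max_eq_right (abs_nonneg (1 - max |x| |y| - (1 - max |x'| |y'|))), h3] at h1
  exact h1.trans (h2.trans (max_le_max (abs_abs_sub_abs_le _ _) (abs_abs_sub_abs_le _ _)))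

/-- sign of a sheet -/
noncomputable def sgn (v : VV) : ℝ := if sh v = 0 then 1 else -1

theorem abs_sgn (v : VV) : |sgn v| = 1 := by
  unfold sgn; split_ifs <;> simp

/-- rescaled coordinates -/
noncomputable def xc (n : ℕ) (v : VV) : ℝ := ((v.1 : ℝ) - (n : ℝ) ^ 2) / n

/-- rescaled coordinates -/
noncomputable def yc (n : ℕ) (v : VV) : ℝ := (v.2.1 : ℝ) / n

/-- the map to the bipyramid -/
noncomputable def pN (n : ℕ) (v : VV) : ℝ × ℝ × ℝ :=
  (cl (xc n v), cl (yc n v), sgn v * ht (xc n v) (yc n v))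

theorem pN_le (n : ℕ) (v : VV) : ‖pN n v‖ ≤ 1 := by
  rw [norm3]
  unfold pN
  refine max_le (abs_cl_le _) (max_le (abs_cl_le _) ?_)
  rw [abs_mul, abs_sgn, one_mul, abs_of_nonneg (ht_nonneg _ _)]
  exact ht_le_one _ _

theorem le_pN (n : ℕ) (v : VV) : 1 / 2 ≤ ‖pN n v‖ := by
  rw [norm3]
  unfold pN
  simp only
  rcases le_or_gt (1 / 2) |xc n v| with h | h
  · exact (le_abs_cl _ h).trans (le_max_left _ _)
  rcases le_or_gt (1 / 2) |yc n v| with h' | h'
  · exact (le_abs_cl _ h').trans ((le_max_left _ _).trans (le_max_right _ _))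
  refine le_trans ?_ ((le_max_right _ _).trans (le_max_right _ _))
  rw [abs_mul, abs_sgn, one_mul, abs_of_nonneg (ht_nonneg _ _)]
  unfold ht
  refine le_trans ?_ (le_max_right _ _)
  have : max |xc n v| |yc n v| ≤ 1 / 2 := max_le h.le h'.le
  linarith

theorem pN_adj (n : ℕ) (hn : 0 < n) (u v : VV) (h : Yadj u v) : ‖pN n u - pN n v‖ ≤ 1 / n := by
  have hn' : (0 : ℝ) < n := by exact_mod_cast hn
  have hpos : (0 : ℝ) ≤ 1 / n := by positivity
  obtain ⟨i, j, k⟩ := u
  obtain ⟨i', j', k'⟩ := v
  rw [norm3]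
  rcases h with ⟨h1, h2, h3⟩ | ⟨h1, h2, h3, h4⟩ | ⟨h1, h2, h3, h4⟩
  · simp only at h1 h2 h3
    subst h1
    have hs : sgn (i, j, k) = sgn (i, j', k') := by
      unfold sgn
      have : sh (i, j, k) = sh (i, j', k') := by
        simp only [sh, ev]
        rcases h2 with rfl | rfl
        · cases k <;> cases k' <;> simp at h3 ⊢
          omega
        · cases k <;> cases k' <;> simp at h3 ⊢
          omega
      rw [this]
    have hy : |yc n (i, j, k) - yc n (i, j', k')| = 1 / n := by
      unfold yc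
      simp only
      rw [← sub_div, abs_div, abs_of_pos hn']
      congr 1
      rcases h2 with rfl | rfl
      · push_cast; rw [abs_of_nonpos (by linarith)]; ring
      · push_cast; rw [abs_of_nonneg (by linarith)]; ring
    have hx : xc n (i, j, k) = xc n (i, j', k') := rfl
    show max |cl (xc n (i, j, k)) - cl (xc n (i, j', k'))|
      (max |cl (yc n (i, j, k)) - cl (yc n (i, j', k'))|
        |sgn (i, j, k) * ht (xc n (i, j, k)) (yc n (i, j, k)) -
          sgn (i, j', k') * ht (xc n (i, j', k')) (yc n (i, j', k'))|) ≤ 1 / n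
    rw [hx, hs, ← mul_sub, abs_mul, abs_sgn, one_mul, sub_self, abs_zero]
    refine max_le hpos (max_le ((cl_lip _ _).trans hy.le) ((ht_lip _ _ _ _).trans ?_))
    rw [sub_self, abs_zero]
    exact max_le hpos hy.le
  · simp only at h1 h2 h3 h4
    subst h2 h3 h4
    have hs : sgn (i, j, false) = sgn (i', j, false) := rfl
    have hx : |xc n (i, j, false) - xc n (i', j, false)| = 1 / n := by
      unfold xc
      simp only
      rw [← sub_div, abs_div, abs_of_pos hn']
      congr 1
      rcases h1 with rfl | rfl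
      · push_cast; rw [abs_of_nonpos (by linarith)]; ring
      · push_cast; rw [abs_of_nonneg (by linarith)]; ring
    have hy : yc n (i, j, false) = yc n (i', j, false) := rfl
    show max |cl (xc n (i, j, false)) - cl (xc n (i', j, false))|
      (max |cl (yc n (i, j, false)) - cl (yc n (i', j, false))|
        |sgn (i, j, false) * ht (xc n (i, j, false)) (yc n (i, j, false)) -
          sgn (i', j, false) * ht (xc n (i', j, false)) (yc n (i', j, false))|) ≤ 1 / n
    rw [hy, hs, ← mul_sub, abs_mul, abs_sgn, one_mul, sub_self, abs_zero]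
    refine max_le ((cl_lip _ _).trans hx.le) (max_le hpos ((ht_lip _ _ _ _).trans ?_))
    rw [sub_self, abs_zero]
    exact max_le hx.le hpos
  · simp only at h1 h2 h3 h4
    subst h1 h2
    have hx : xc n (i, j, k) = xc n (i, j, k') := rfl
    have hy : yc n (i, j, k) = yc n (i, j, k') := rfl
    have hh : ht (xc n (i, j, k')) (yc n (i, j, k')) = 0 := by
      unfold ht
      apply max_eq_left
      have : 1 ≤ max |xc n (i, j, k')| |yc n (i, j, k')| := by
        by_contra hc
        push Not at hc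
        apply h4
        refine ⟨n, ?_, ?_⟩
        · have h5 := (le_max_left _ _).trans_lt hc
          unfold xc at h5
          simp only at h5
          rw [abs_div, abs_of_pos hn', div_lt_one hn'] at h5
          exact_mod_cast h5
        · have h5 := (le_max_right _ _).trans_lt hc
          unfold yc at h5
          simp only at h5
          rw [abs_div, abs_of_pos hn', div_lt_one hn'] at h5
          exact_mod_cast h5
      linarith
    show max |cl (xc n (i, j, k)) - cl (xc n (i, j, k'))|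
      (max |cl (yc n (i, j, k)) - cl (yc n (i, j, k'))|
        |sgn (i, j, k) * ht (xc n (i, j, k)) (yc n (i, j, k)) -
          sgn (i, j, k') * ht (xc n (i, j, k')) (yc n (i, j, k'))|) ≤ 1 / n
    rw [hx, hy, hh]
    simp

theorem pN_dist (n : ℕ) (hn : 0 < n) (a b : YY.verts) :
    ‖pN n a.1 - pN n b.1‖ ≤ (YY.coe.dist a b : ℝ) / n := by
  have hn' : (0 : ℝ) < n := by exact_mod_cast hn
  have key : ∀ (a b : YY.verts) (w : YY.coe.Walk a b),
      ‖pN n a.1 - pN n b.1‖ ≤ (w.length : ℝ) / n := by
    intro a b w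
    induction w with
    | nil => simp
    | @cons u v z h p ih =>
      have h1 : ‖pN n u.1 - pN n v.1‖ ≤ 1 / n := pN_adj n hn _ _ h
      have h2 : pN n u.1 - pN n z.1 = (pN n u.1 - pN n v.1) + (pN n v.1 - pN n z.1) := by abel
      rw [h2, SimpleGraph.Walk.length_cons]
      refine (norm_add_le _ _).trans ?_
      push_cast
      rw [add_div]
      linarith
  obtain ⟨w, hw⟩ := YY_coe_connected.exists_walk_length_eq_dist a b
  rw [← hw]
  exact key a b w

end Pool.Agent.Lib.MP_6cd968_gt
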