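import Pool.Agent.Lib.MP_6cd968_gt.NRDet

set_option autoImplicit false

namespace Pool.Agent.Lib.MP_6cd968_gt

/-- Boundary labels of the grid cube. -/
def bl (N i j k : ℕ) : ℤ × ℤ × ℤ :=
  if i = 0 then (-1, 0, 0) else if i = N then (1, 0, 0) else
  if j = 0 then (0, -1, 0) else if j = N then (0, 1, 0) else
  if k = 0 then (0, 0, -1) else (0, 0, 1)

/-- corner indicator -/
def ci (N i : ℕ) : ℤ := if i = 0 then 1 else if i + 1 = N then 1 else 0

theorem bl_x0 (N j k : ℕ) : bl N 0 j k = (-1, 0, 0) := by simp [bl]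

theorem bl_xN (N j k : ℕ) (hN : 2 ≤ N) : bl N N j k = (1, 0, 0) := by
  have : N ≠ 0 := by omega
  simp [bl, this]

theorem bl_y0 (N i k : ℕ) : (bl N i 0 k).2.2 = 0 := by
  unfold bl; split_ifs <;> simp_all

theorem bl_yN (N i k : ℕ) (hN : 2 ≤ N) : (bl N i N k).2.2 = 0 := by
  have : N ≠ 0 := by omega
  unfold bl; split_ifs <;> simp_all

theorem sq_third_zero (a b c d : ℤ × ℤ × ℤ) (ha : a.2.2 = 0) (hb : b.2.2 = 0) (hc : c.2.2 = 0)
    (hd : d.2.2 = 0) : sq a b c d = 0 := by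
  simp [sq, det3, ha, hb, hc, hd]

theorem sq_zN (N i j : ℕ) (hN : 2 ≤ N) (hi : i < N) (hj : j < N) :
    sq (bl N i j N) (bl N (i+1) j N) (bl N i (j+1) N) (bl N (i+1) (j+1) N) = ci N i * ci N j := by
  have hN0 : N ≠ 0 := by omega
  have e1 : i + 1 ≠ 0 := by omega
  have e2 : j + 1 ≠ 0 := by omega
  have e3 : i ≠ N := by omega
  have e4 : j ≠ N := by omega
  simp only [bl, ci, hN0, e1, e2, e3, e4, if_false]
  split_ifs <;> first | omega | simp [sq, det3]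

theorem sq_z0 (N i j : ℕ) (hN : 2 ≤ N) (hi : i < N) (hj : j < N) :
    sq (bl N i j 0) (bl N (i+1) j 0) (bl N i (j+1) 0) (bl N (i+1) (j+1) 0) = - (ci N i * ci N j) := by
  have hN0 : N ≠ 0 := by omega
  have e1 : i + 1 ≠ 0 := by omega
  have e2 : j + 1 ≠ 0 := by omega
  have e3 : i ≠ N := by omega
  have e4 : j ≠ N := by omega
  simp only [bl, ci, e1, e2, e3, e4, if_false, if_true]
  split_ifs <;> first | omega | simp [sq, det3]

open Finset in
theorem sum_ci (N : ℕ) (hN : 2 ≤ N) : ∑ i ∈ range N, ci N i = 2 := by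
  obtain ⟨M, rfl⟩ : ∃ M, N = M + 2 := ⟨N - 2, by omega⟩
  rw [sum_range_succ, sum_range_succ']
  have h1 : ∀ i ∈ range M, ci (M + 2) (i + 1) = 0 := by
    intro i hi
    rw [mem_range] at hi
    unfold ci
    rw [if_neg (by omega), if_neg (by omega)]
  rw [sum_congr rfl h1]
  simp [ci]

open Finset in
/-- The sum over all cubes of a labelling with the standard boundary labels is `8`. -/
theorem sum_cubeB_eq_eight (N : ℕ) (hN : 2 ≤ N) (p : ℕ → ℕ → ℕ → ℤ × ℤ × ℤ)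
    (hp : ∀ i j k, i ≤ N → j ≤ N → k ≤ N →
      (i = 0 ∨ i = N ∨ j = 0 ∨ j = N ∨ k = 0 ∨ k = N) → p i j k = bl N i j k) :
    ∑ i ∈ range N, ∑ j ∈ range N, ∑ k ∈ range N,
      cubeB (p i j k) (p (i+1) j k) (p i (j+1) k) (p (i+1) (j+1) k)
        (p i j (k+1)) (p (i+1) j (k+1)) (p i (j+1) (k+1)) (p (i+1) (j+1) (k+1)) = 8 := by
  rw [sum_cubeB]
  have hx : ∀ j ∈ range N, ∀ k ∈ range N,
      (sq (p N j k) (p N (j+1) k) (p N j (k+1)) (p N (j+1) (k+1))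
        - sq (p 0 j k) (p 0 (j+1) k) (p 0 j (k+1)) (p 0 (j+1) (k+1))) = 0 := by
    intro j hj k hk
    rw [mem_range] at hj hk
    rw [hp N j k, hp N (j+1) k, hp N j (k+1), hp N (j+1) (k+1),
      hp 0 j k, hp 0 (j+1) k, hp 0 j (k+1), hp 0 (j+1) (k+1)]
    · simp only [bl_x0, bl_xN _ _ _ hN]
      simp [sq, det3]
    all_goals omega
  have hy : ∀ i ∈ range N, ∀ k ∈ range N,
      (sq (p i N k) (p i N (k+1)) (p (i+1) N k) (p (i+1) N (k+1))
        - sq (p i 0 k) (p i 0 (k+1)) (p (i+1) 0 k) (p (i+1) 0 (k+1))) = 0 := by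
    intro i hi k hk
    rw [mem_range] at hi hk
    rw [hp i N k, hp i N (k+1), hp (i+1) N k, hp (i+1) N (k+1),
      hp i 0 k, hp i 0 (k+1), hp (i+1) 0 k, hp (i+1) 0 (k+1)]
    · rw [sq_third_zero _ _ _ _ (bl_yN _ _ _ hN) (bl_yN _ _ _ hN) (bl_yN _ _ _ hN) (bl_yN _ _ _ hN),
        sq_third_zero _ _ _ _ (bl_y0 _ _ _) (bl_y0 _ _ _) (bl_y0 _ _ _) (bl_y0 _ _ _)]
      simp
    all_goals omega
  have hz : ∀ i ∈ range N, ∀ j ∈ range N,
      (sq (p i j N) (p (i+1) j N) (p i (j+1) N) (p (i+1) (j+1) N)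
        - sq (p i j 0) (p (i+1) j 0) (p i (j+1) 0) (p (i+1) (j+1) 0)) = 2 * (ci N i * ci N j) := by
    intro i hi j hj
    rw [mem_range] at hi hj
    rw [hp i j N, hp (i+1) j N, hp i (j+1) N, hp (i+1) (j+1) N,
      hp i j 0, hp (i+1) j 0, hp i (j+1) 0, hp (i+1) (j+1) 0]
    · rw [sq_zN N i j hN hi hj, sq_z0 N i j hN hi hj]
      ring
    all_goals omega
  rw [sum_congr rfl (fun j hj => sum_congr rfl (hx j hj)),
    sum_congr rfl (fun j hj => sum_congr rfl (hy j hj)),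
    sum_congr rfl (fun j hj => sum_congr rfl (hz j hj))]
  simp only [sum_const_zero, zero_add, ← mul_sum]
  rw [← sum_mul, sum_ci N hN]
  norm_num

end Pool.Agent.Lib.MP_6cd968_gt
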