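import Mathlib

set_option autoImplicit false

namespace Pool.Agent.Lib.MP_6cd968_gt

/-- 3x3 determinant of integer vectors. -/
def det3 (a b c : ℤ × ℤ × ℤ) : ℤ :=
  a.1 * (b.2.1 * c.2.2 - b.2.2 * c.2.1) - a.2.1 * (b.1 * c.2.2 - b.2.2 * c.1)
    + a.2.2 * (b.1 * c.2.1 - b.2.1 * c.1)

/-- signed cone volume of a square with corners `a = (0,0)`, `b = (1,0)`, `c = (0,1)`, `d = (1,1)`. -/
def sq (a b c d : ℤ × ℤ × ℤ) : ℤ := det3 a b d + det3 a d c

/-- dot product -/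
def dot (s a : ℤ × ℤ × ℤ) : ℤ := s.1 * a.1 + s.2.1 * a.2.1 + s.2.2 * a.2.2

/-- boundary of a cube -/
def cubeB (p000 p100 p010 p110 p001 p101 p011 p111 : ℤ × ℤ × ℤ) : ℤ :=
  (sq p100 p110 p101 p111 - sq p000 p010 p001 p011)
  + (sq p010 p011 p110 p111 - sq p000 p001 p100 p101)
  + (sq p001 p101 p011 p111 - sq p000 p100 p010 p110)

theorem cubeB_eq (p000 p100 p010 p110 p001 p101 p011 p111 : ℤ × ℤ × ℤ) :
    cubeB p000 p100 p010 p110 p001 p101 p011 p111 =
      det3 (p100 - p000) (p110 - p000) (p111 - p000)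
      + det3 (p010 - p000) (p011 - p000) (p111 - p000)
      + det3 (p001 - p000) (p101 - p000) (p111 - p000)
      - det3 (p100 - p000) (p101 - p000) (p111 - p000)
      - det3 (p010 - p000) (p110 - p000) (p111 - p000)
      - det3 (p001 - p000) (p011 - p000) (p111 - p000) := by
  obtain ⟨a0, b0, c0⟩ := p000
  obtain ⟨a1, b1, c1⟩ := p100
  obtain ⟨a2, b2, c2⟩ := p010
  obtain ⟨a3, b3, c3⟩ := p110
  obtain ⟨a4, b4, c4⟩ := p001
  obtain ⟨a5, b5, c5⟩ := p101
  obtain ⟨a6, b6, c6⟩ := p011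
  obtain ⟨a7, b7, c7⟩ := p111
  simp only [cubeB, sq, det3, Prod.fst_sub, Prod.snd_sub]
  ring

theorem det3_eq_zero (s u v w : ℤ × ℤ × ℤ) (hs : s.1 ≠ 0)
    (hu : dot s u = 0) (hv : dot s v = 0) (hw : dot s w = 0) : det3 u v w = 0 := by
  have h : s.1 * det3 u v w = 0 := by
    simp only [dot] at hu hv hw
    simp only [det3]
    linear_combination (v.2.1 * w.2.2 - v.2.2 * w.2.1) * hu + (w.2.1 * u.2.2 - w.2.2 * u.2.1) * hv
      + (u.2.1 * v.2.2 - u.2.2 * v.2.1) * hw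
  rcases mul_eq_zero.mp h with h | h
  · exact absurd h hs
  · exact h

theorem dot_sub (s u v : ℤ × ℤ × ℤ) : dot s (u - v) = dot s u - dot s v := by
  simp only [dot, Prod.fst_sub, Prod.snd_sub]; ring

theorem cubeB_eq_zero (s : ℤ × ℤ × ℤ) (hs : s.1 ≠ 0) (t : ℤ)
    (p000 p100 p010 p110 p001 p101 p011 p111 : ℤ × ℤ × ℤ)
    (h000 : dot s p000 = t) (h100 : dot s p100 = t) (h010 : dot s p010 = t) (h110 : dot s p110 = t)
    (h001 : dot s p001 = t) (h101 : dot s p101 = t) (h011 : dot s p011 = t) (h111 : dot s p111 = t) :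
    cubeB p000 p100 p010 p110 p001 p101 p011 p111 = 0 := by
  rw [cubeB_eq]
  have key : ∀ u v w : ℤ × ℤ × ℤ, dot s u = t → dot s v = t → dot s w = t →
      det3 (u - p000) (v - p000) (w - p000) = 0 := by
    intro u v w hu hv hw
    apply det3_eq_zero s _ _ _ hs <;> rw [dot_sub] <;> simp [*]
  rw [key _ _ _ h100 h110 h111, key _ _ _ h010 h011 h111, key _ _ _ h001 h101 h111,
    key _ _ _ h100 h101 h111, key _ _ _ h010 h110 h111, key _ _ _ h001 h011 h111]
  norm_num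

open Finset in
/-- Telescoping: the sum over all cubes of `cubeB` equals the boundary sum. -/
theorem sum_cubeB (N : ℕ) (p : ℕ → ℕ → ℕ → ℤ × ℤ × ℤ) :
    ∑ i ∈ range N, ∑ j ∈ range N, ∑ k ∈ range N,
      cubeB (p i j k) (p (i+1) j k) (p i (j+1) k) (p (i+1) (j+1) k)
        (p i j (k+1)) (p (i+1) j (k+1)) (p i (j+1) (k+1)) (p (i+1) (j+1) (k+1)) =
    (∑ j ∈ range N, ∑ k ∈ range N,
      (sq (p N j k) (p N (j+1) k) (p N j (k+1)) (p N (j+1) (k+1))
        - sq (p 0 j k) (p 0 (j+1) k) (p 0 j (k+1)) (p 0 (j+1) (k+1))))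
    + (∑ i ∈ range N, ∑ k ∈ range N,
      (sq (p i N k) (p i N (k+1)) (p (i+1) N k) (p (i+1) N (k+1))
        - sq (p i 0 k) (p i 0 (k+1)) (p (i+1) 0 k) (p (i+1) 0 (k+1))))
    + (∑ i ∈ range N, ∑ j ∈ range N,
      (sq (p i j N) (p (i+1) j N) (p i (j+1) N) (p (i+1) (j+1) N)
        - sq (p i j 0) (p (i+1) j 0) (p i (j+1) 0) (p (i+1) (j+1) 0))) := by
  simp only [cubeB]
  simp only [sum_add_distrib]
  congr 1
  · congr 1
    · rw [sum_comm]
      refine sum_congr rfl fun j _ => ?_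
      rw [sum_comm]
      refine sum_congr rfl fun k _ => ?_
      exact sum_range_sub (fun i => sq (p i j k) (p i (j+1) k) (p i j (k+1)) (p i (j+1) (k+1))) N
    · refine sum_congr rfl fun i _ => ?_
      rw [sum_comm]
      refine sum_congr rfl fun k _ => ?_
      exact sum_range_sub (fun j => sq (p i j k) (p i j (k+1)) (p (i+1) j k) (p (i+1) j (k+1))) N
  · refine sum_congr rfl fun i _ => ?_
    refine sum_congr rfl fun j _ => ?_
    exact sum_range_sub (fun k => sq (p i j k) (p (i+1) j k) (p i (j+1) k) (p (i+1) (j+1) k)) N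

end Pool.Agent.Lib.MP_6cd968_gt
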